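import Pool.Agent.Lib.MP_926cc3_nt.XG.Spec

/-!
# The critical point: elementary properties and growth
-/

set_option autoImplicit false

open Filter Topology MeasureTheory ProbabilityTheory

namespace Pool.Agent.Lib.MP_926cc3_nt.XG

open Pool.Agent.Lib.MP_926cc3_nt.RS Pool.Agent.Lib.MP_926cc3_nt.TH

variable {w : ℕ → ℕ}

theorem crit_nonempty (h2 : ∀ n, 2 ≤ w n) (g : ℕ) :
    {n : ℕ | 2 ≤ n ∧ (sieveMin (w n) g : ℝ) ≤ V (w n) * Real.log n ^ 2}.Nonempty := by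
  refine ⟨⌈Real.exp (Real.sqrt g)⌉₊ + 2, by omega, ?_⟩
  set n : ℕ := ⌈Real.exp (Real.sqrt g)⌉₊ + 2 with hn
  have h3 : Real.exp (Real.sqrt g) ≤ n := by
    have h4 := Nat.le_ceil (Real.exp (Real.sqrt g))
    rw [hn]
    push_cast
    linarith
  have h5 : Real.sqrt g ≤ Real.log n := by
    rw [Real.le_log_iff_exp_le (lt_of_lt_of_le (Real.exp_pos _) h3)]
    exact h3
  have h6 : (g : ℝ) ≤ Real.log n ^ 2 := by
    calc (g : ℝ) = Real.sqrt g ^ 2 := (Real.sq_sqrt (Nat.cast_nonneg g)).symm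
      _ ≤ _ := pow_le_pow_left₀ (Real.sqrt_nonneg _) h5 2
  have h7 := le_self (h2 n) g
  rw [div_le_iff₀ (V_pos' (h2 n))] at h7
  calc (sieveMin (w n) g : ℝ) ≤ g * V (w n) := h7
    _ ≤ Real.log n ^ 2 * V (w n) := mul_le_mul_of_nonneg_right h6 (V_pos' (h2 n)).le
    _ = _ := mul_comm _ _

theorem crit_spec (h2 : ∀ n, 2 ≤ w n) (g : ℕ) : 2 ≤ crit w g ∧
    (sieveMin (w (crit w g)) g : ℝ) ≤ V (w (crit w g)) * Real.log (crit w g) ^ 2 :=
  Nat.sInf_mem (crit_nonempty h2 g)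

theorem of_lt_crit {g n : ℕ} (hn : 2 ≤ n) (h : n < crit w g) :
    V (w n) * Real.log n ^ 2 < sieveMin (w n) g := by
  by_contra hcon
  push Not at hcon
  have : crit w g ≤ n := Nat.sInf_le ⟨hn, hcon⟩
  omega

/-- the two sides of the critical point, for all levels -/
theorem above (hm : Monotone w) (h2 : ∀ n, 2 ≤ w n) {g z : ℕ} (hz : w (crit w g) ≤ z) :
    (sieveMin z g : ℝ) ≤ V z * Real.log (crit w g) ^ 2 := by
  have h3 := anti (h2 (crit w g)) hz g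
  have h4 := (crit_spec h2 g).2
  have hz2 : 2 ≤ z := (h2 _).trans hz
  have h5 : (sieveMin (w (crit w g)) g : ℝ) / V (w (crit w g)) ≤ Real.log (crit w g) ^ 2 := by
    rw [div_le_iff₀ (V_pos' (h2 _)), mul_comm]
    exact h4
  have h6 := h3.trans h5
  rw [div_le_iff₀ (V_pos' hz2)] at h6
  linarith

theorem below (hm : Monotone w) (h2 : ∀ n, 2 ≤ w n) {g n : ℕ} (hc : 3 ≤ crit w g)
    (hn : n < crit w g) :
    V (w n) * Real.log ((crit w g - 1 : ℕ) : ℝ) ^ 2 < sieveMin (w n) g := by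
  have h3 : V (w (crit w g - 1)) * Real.log ((crit w g - 1 : ℕ) : ℝ) ^ 2 <
      sieveMin (w (crit w g - 1)) g := of_lt_crit (by omega) (by omega)
  have h4 := anti (h2 n) (hm (show n ≤ crit w g - 1 by omega)) g
  have h5 : Real.log ((crit w g - 1 : ℕ) : ℝ) ^ 2 <
      (sieveMin (w (crit w g - 1)) g : ℝ) / V (w (crit w g - 1)) := by
    rw [lt_div_iff₀ (V_pos' (h2 _)), mul_comm]
    exact h3
  have h6 := h5.trans_le h4
  rw [lt_div_iff₀ (V_pos' (h2 _))] at h6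
  linarith

theorem crit_tendsto (hm : Monotone w) (h2 : ∀ n, 2 ≤ w n) : Tendsto (crit w) atTop atTop := by
  obtain ⟨C, hC, K, h⟩ := lower
  rw [tendsto_atTop]
  intro n0
  set z : ℕ := w n0 with hz
  have hV := V_pos' (h2 n0)
  rw [← hz] at hV
  obtain ⟨g0, hg0⟩ := exists_nat_gt ((V z * Real.log n0 ^ 2 + C * (z : ℝ) ^ K) * 2 / V z)
  filter_upwards [eventually_ge_atTop g0] with g hg
  by_contra hcon
  push Not at hcon
  have h3 := crit_spec h2 g
  have h4 := above hm h2 (g := g) (z := z) (hm hcon.le)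
  have h5 := h z g (h2 n0)
  have hg' : (g0 : ℝ) ≤ g := by exact_mod_cast hg
  rw [div_lt_iff₀ hV] at hg0
  have h6 : Real.log (crit w g) ^ 2 ≤ Real.log n0 ^ 2 := by
    apply pow_le_pow_left₀ (Real.log_natCast_nonneg _)
    apply Real.log_le_log
    · have : (2 : ℝ) ≤ crit w g := by exact_mod_cast h3.1
      linarith
    · exact_mod_cast hcon.le
  have h7 : V z * Real.log (crit w g) ^ 2 ≤ V z * Real.log n0 ^ 2 :=
    mul_le_mul_of_nonneg_left h6 hV.le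
  have h8 : (g0 : ℝ) * V z ≤ g * V z := mul_le_mul_of_nonneg_right hg' hV.le
  linarith

theorem crit_growth (hm : Monotone w) (h2 : ∀ n, 2 ≤ w n)
    (hw : (fun n => (w n : ℝ)) =o[atTop] (fun n : ℕ => Real.log n)) :
    ∃ C : ℝ, 0 < C ∧ ∃ K : ℕ, ∀ᶠ g : ℕ in atTop, (g : ℝ) ≤ C * Real.log (crit w g) ^ K := by
  obtain ⟨C, hC, K, h⟩ := lower
  refine ⟨2 + 2 * C, by linarith, K + 2, ?_⟩
  have h1 : ∀ᶠ n : ℕ in atTop, (w n : ℝ) ≤ Real.log n ∧ 1 ≤ Real.log (n : ℝ) := by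
    have h3 := hw.def (show (0 : ℝ) < 1 by norm_num)
    have hlog : Tendsto (fun n : ℕ => Real.log (n : ℝ)) atTop atTop :=
      Real.tendsto_log_atTop.comp tendsto_natCast_atTop_atTop
    filter_upwards [h3, hlog.eventually_ge_atTop 1] with n hn hn1
    rw [Real.norm_of_nonneg (Nat.cast_nonneg _), Real.norm_of_nonneg (by linarith), one_mul] at hn
    exact ⟨hn, hn1⟩
  filter_upwards [(crit_tendsto hm h2).eventually h1] with g hg
  obtain ⟨e1, e2⟩ := hg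
  set N := crit w g with hN
  set L := Real.log (N : ℝ) with hL
  set z := w N with hz
  have hz2 : 2 ≤ z := h2 N
  have hV := V_pos' hz2
  have h3 := (crit_spec h2 g).2
  rw [← hN, ← hz, ← hL] at h3
  have h4 := h z g hz2
  have h5 := Gra.V_inv_le z hz2
  have h6 : (g : ℝ) / 2 ≤ L ^ 2 + C * (z : ℝ) ^ K * (V z)⁻¹ := by
    have h7 : (g : ℝ) / 2 * V z ≤ L ^ 2 * V z + C * (z : ℝ) ^ K := by linarith
    calc (g : ℝ) / 2 = (g : ℝ) / 2 * V z * (V z)⁻¹ := by field_simp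
      _ ≤ (L ^ 2 * V z + C * (z : ℝ) ^ K) * (V z)⁻¹ :=
        mul_le_mul_of_nonneg_right h7 (inv_pos.2 hV).le
      _ = _ := by field_simp
  have hz0 : (0 : ℝ) ≤ z := Nat.cast_nonneg z
  have hL0 : 0 ≤ L := by linarith
  have h7 : C * (z : ℝ) ^ K * (V z)⁻¹ ≤ C * L ^ (K + 2) := by
    calc C * (z : ℝ) ^ K * (V z)⁻¹ ≤ C * (z : ℝ) ^ K * z :=
          mul_le_mul_of_nonneg_left h5 (by positivity)
      _ = C * (z : ℝ) ^ (K + 1) := by ring
      _ ≤ C * L ^ (K + 1) := by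
          apply mul_le_mul_of_nonneg_left _ hC.le
          exact pow_le_pow_left₀ hz0 e1 _
      _ ≤ C * L ^ (K + 2) := by
          apply mul_le_mul_of_nonneg_left _ hC.le
          exact pow_le_pow_right₀ e2 (by omega)
  have h8 : L ^ 2 ≤ L ^ (K + 2) := pow_le_pow_right₀ e2 (by omega)
  linarith

end Pool.Agent.Lib.MP_926cc3_nt.XG
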