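import Pool.Agent.Lib.MP_926cc3_nt.RS.Defs

/-!
# The interval sieve and the critical point
-/

set_option autoImplicit false

namespace Pool.Agent.Lib.MP_926cc3_nt.XG

open Pool.Agent.Lib.MP_926cc3_nt.RS

open Classical in
/-- the number of `n ∈ (a, a + g]` without prime factor `< z` -/
noncomputable def cnt (z a g : ℕ) : ℕ := ((Finset.Ioc a (a + g)).filter (fun n => NoSmall z n)).card

/-- the least number of integers without prime factor `< z` among `g` consecutive positive
integers -/
noncomputable def sieveMin (z g : ℕ) : ℕ := sInf {k : ℕ | ∃ a : ℕ, cnt z a g = k}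

/-- the critical point: the least `n ≥ 2` such that some `g` consecutive positive integers contain
at most `V (w n) (log n) ^ 2` integers without prime factor `< w n` -/
noncomputable def crit (w : ℕ → ℕ) (g : ℕ) : ℕ :=
  sInf {n : ℕ | 2 ≤ n ∧ (sieveMin (w n) g : ℝ) ≤ V (w n) * Real.log n ^ 2}

end Pool.Agent.Lib.MP_926cc3_nt.XG
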