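import Pool.Agent.Lib.MP_926cc3_nt.XG.Crit
import Pool.Agent.Lib.MP_926cc3_nt.TH.All

/-!
# No gap of length `g` below `crit ^ (1 - η)`
-/

set_option autoImplicit false

open Filter Topology MeasureTheory ProbabilityTheory

namespace Pool.Agent.Lib.MP_926cc3_nt.XG

open Pool.Agent.Lib.MP_926cc3_nt.RS Pool.Agent.Lib.MP_926cc3_nt.TH

universe u

variable {w : ℕ → ℕ}

theorem V_anti {z z' : ℕ} (hz : 2 ≤ z) (h : z ≤ z') : V z' ≤ V z := by
  induction z', h using Nat.le_induction with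
  | base => exact le_rfl
  | succ n hn ih =>
    refine le_trans ?_ ih
    have hn2 : 2 ≤ n := by omega
    have hV := V_pos' hn2
    by_cases hp : n.Prime
    · rw [V_succ_prime hp]
      have h1 : (0 : ℝ) ≤ 1 / (n : ℝ) := by positivity
      nlinarith
    · rw [V_succ_not hp]

theorem V_le_one {z : ℕ} (hz : 2 ≤ z) : V z ≤ 1 := by
  have := V_anti le_rfl hz
  rwa [V_two] at this

/-- the density sum of a window -/
theorem window_ge (hm : Monotone w) (h2 : ∀ n, 2 ≤ w n) {a g Y : ℕ} (ha : 1 ≤ a)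
    (hY : a + g ≤ Y) : (sieveMin (w (a + g)) g : ℝ) / (V (w (a + 1)) * Real.log Y) ≤
      ∑ n ∈ Finset.Ioc a (a + g), cgDens w n := by
  have hV1 := V_pos' (h2 (a + 1))
  by_cases hlog : Real.log Y ≤ 0
  · have h3 : (sieveMin (w (a + g)) g : ℝ) / (V (w (a + 1)) * Real.log Y) ≤ 0 := by
      apply div_nonpos_of_nonneg_of_nonpos (Nat.cast_nonneg _)
      exact mul_nonpos_of_nonneg_of_nonpos hV1.le hlog
    exact h3.trans (Finset.sum_nonneg fun n _ => UPHM.cg_nonneg h2 n)
  push Not at hlog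
  have h3 : (sieveMin (w (a + g)) g : ℝ) ≤
      ∑ n ∈ Finset.Ioc a (a + g), Gra.r (w (a + g)) n := by
    rw [← cnt_eq_sum]
    exact_mod_cast sieveMin_le _ _ _
  calc (sieveMin (w (a + g)) g : ℝ) / (V (w (a + 1)) * Real.log Y)
      ≤ (∑ n ∈ Finset.Ioc a (a + g), Gra.r (w (a + g)) n) / (V (w (a + 1)) * Real.log Y) :=
        div_le_div_of_nonneg_right h3 (mul_pos hV1 hlog).le
    _ = ∑ n ∈ Finset.Ioc a (a + g), Gra.r (w (a + g)) n / (V (w (a + 1)) * Real.log Y) :=
        Finset.sum_div _ _ _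
    _ ≤ ∑ n ∈ Finset.Ioc a (a + g), cgDens w n := by
      refine Finset.sum_le_sum fun n hn => ?_
      rw [Finset.mem_Ioc] at hn
      refine le_trans ?_ (UPHM.le_cg h2 (show 2 ≤ n by omega) (show n ≤ Y by omega))
      rw [← div_div]
      apply div_le_div_of_nonneg_right _ hlog.le
      have e1 : Gra.r (w (a + g)) n ≤ Gra.r (w n) n := by
        unfold Gra.r
        by_cases h4 : NoSmall (w (a + g)) n
        · have h5 : NoSmall (w n) n := fun p hp hpn => (hm hn.2).trans (h4 p hp hpn)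
          rw [if_pos h4, if_pos h5]
        · rw [if_neg h4]
          split_ifs <;> norm_num
      have e2 : V (w n) ≤ V (w (a + 1)) := V_anti (h2 _) (hm (by omega))
      exact div_le_div₀ (Gra.r_nonneg _ _) e1 (V_pos' (h2 n)) e2

/-- the probability that a window contains no element -/
theorem prod_le (h2 : ∀ n, 2 ≤ w n) (p : ℕ → ℝ) (hp0 : ∀ n, 0 ≤ p n) (hp1 : ∀ n, p n ≤ 1)
    (N0 : ℕ) (hp : ∀ n, N0 ≤ n → p n = cgDens w n) (J : Finset ℕ) :
    ∏ n ∈ J, (1 - p n) ≤ Real.exp (∑ n ∈ Finset.range N0, cgDens w n) *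
      Real.exp (-∑ n ∈ J, cgDens w n) := by
  classical
  have h3 : ∏ n ∈ J, (1 - p n) ≤ ∏ n ∈ J, Real.exp (-p n) := by
    refine Finset.prod_le_prod (fun n _ => by linarith [hp1 n]) fun n _ => ?_
    have := Real.add_one_le_exp (-p n)
    linarith
  refine h3.trans ?_
  rw [← Real.exp_sum, ← Real.exp_add]
  apply Real.exp_le_exp.2
  rw [Finset.sum_neg_distrib]
  have h4 : ∑ n ∈ J, cgDens w n ≤ ∑ n ∈ J, p n + ∑ n ∈ Finset.range N0, cgDens w n := by
    rw [← Finset.sum_filter_add_sum_filter_not J (fun n => n < N0) (cgDens w)]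
    have e1 : ∑ n ∈ J.filter (fun n => n < N0), cgDens w n ≤
        ∑ n ∈ Finset.range N0, cgDens w n := by
      apply Finset.sum_le_sum_of_subset_of_nonneg
      · intro n hn
        exact Finset.mem_range.2 (Finset.mem_filter.1 hn).2
      · intro n _ _
        exact UPHM.cg_nonneg h2 n
    have e2 : ∑ n ∈ J.filter (fun n => ¬ n < N0), cgDens w n ≤ ∑ n ∈ J, p n := by
      calc ∑ n ∈ J.filter (fun n => ¬ n < N0), cgDens w n
          = ∑ n ∈ J.filter (fun n => ¬ n < N0), p n := by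
            refine Finset.sum_congr rfl fun n hn => ?_
            rw [hp n (not_lt.1 (Finset.mem_filter.1 hn).2)]
        _ ≤ ∑ n ∈ J, p n := Finset.sum_le_sum_of_subset_of_nonneg (Finset.filter_subset _ _)
            fun n _ _ => hp0 n
    linarith
  linarith

/-- sums of a monotone function over a shifted range -/
theorem sum_shift {f : ℕ → ℕ} (hf : Monotone f) (m g : ℕ) :
    ∑ a ∈ Finset.range m, f (a + g) ≤ ∑ a ∈ Finset.range m, f a + g * f (m + g) := by
  induction g with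
  | zero => simp
  | succ g ih =>
    have h1 : ∑ a ∈ Finset.range m, f (a + (g + 1)) + f g =
        ∑ a ∈ Finset.range m, f (a + g) + f (m + g) := by
      have h2 := Finset.sum_range_succ' (fun a => f (a + g)) m
      rw [Finset.sum_range_succ] at h2
      simp only [zero_add] at h2
      have h3 : ∀ a, f (a + 1 + g) = f (a + (g + 1)) := fun a => by congr 1; omega
      simp_rw [h3] at h2
      omega
    have h2 : f (m + g) ≤ f (m + (g + 1)) := hf (by omega)
    have h3 : (g + 1) * f (m + (g + 1)) = g * f (m + (g + 1)) + f (m + (g + 1)) := by ring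
    have h4 : g * f (m + g) ≤ g * f (m + (g + 1)) := Nat.mul_le_mul_left g h2
    omega

/-- the number of windows which contain a jump of the level -/
theorem card_jump (hm : Monotone w) {g Y : ℕ} (hg : 1 ≤ g) (hY : g ≤ Y) :
    ((Finset.Icc 1 (Y - g)).filter (fun a => w (a + 1) ≠ w (a + g))).card ≤ g * w (Y + 1) := by
  classical
  set m : ℕ := Y - g with hm'
  have h1 : ((Finset.Icc 1 m).filter (fun a => w (a + 1) ≠ w (a + g))).card +
      ∑ a ∈ Finset.Icc 1 m, w (a + 1) ≤ ∑ a ∈ Finset.Icc 1 m, w (a + g) := by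
    rw [Finset.card_filter, ← Finset.sum_add_distrib]
    refine Finset.sum_le_sum fun a _ => ?_
    have h3 : w (a + 1) ≤ w (a + g) := hm (by omega)
    split_ifs with h4
    · omega
    · omega
  have e : ∀ f : ℕ → ℕ, ∑ a ∈ Finset.Icc 1 m, f a = ∑ a ∈ Finset.range m, f (a + 1) := by
    intro f
    rw [Finset.range_eq_Ico, Finset.sum_Ico_add' f 0 m 1]
    congr 1
  rw [e (fun a => w (a + 1)), e (fun a => w (a + g))] at h1
  have h3 := sum_shift (f := fun a => w (a + 2)) (fun a b hab => hm (by omega)) m (g - 1)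
  have h4 : ∀ a, w (a + 1 + g) = w (a + (g - 1) + 2) := fun a => by congr 1; omega
  have h5 : ∀ a, w (a + 1 + 1) = w (a + 2) := fun a => rfl
  simp_rw [h4, h5] at h1
  have h6 : m + (g - 1) + 2 = Y + 1 := by omega
  rw [h6] at h3
  have h7 : (g - 1) * w (Y + 1) ≤ g * w (Y + 1) := Nat.mul_le_mul_right _ (by omega)
  omega

theorem inv_V_log : ∃ A B : ℝ, 0 < A ∧ 0 ≤ B ∧ ∀ z : ℕ, 2 ≤ z →
    (V z)⁻¹ ≤ A + B * Real.log z := by
  obtain ⟨G, hG⟩ := specDDE
  obtain ⟨c, hc, hlim, -⟩ := All.hLIM G hG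
  obtain ⟨A, hA, h⟩ := CGZM.inv_V_le c hc hlim
  refine ⟨A + 1, 2 / c, by linarith, by positivity, fun z hz => ?_⟩
  have := h z hz
  linarith

/-- the tail estimate -/
theorem tail (A B D C η : ℝ) (K : ℕ) (hA : 0 < A) (hB : 0 ≤ B) (hD : 0 ≤ D) (hC : 0 < C)
    (hη : 0 < η) : ∀ᶠ L : ℝ in atTop,
    D * (Real.exp (-(η / 2 * L)) + C * L ^ K * L * Real.exp (-(L / (A + B * Real.log L)))) *
      (C * L ^ K) ^ 2 ≤ 1 := by
  have hs : Tendsto (fun L : ℝ => Real.sqrt L) atTop atTop := Real.tendsto_sqrt_atTop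
  have h1 : Tendsto (fun s : ℝ => D * (1 + C * s ^ (2 * K + 2)) * (C * s ^ (2 * K)) ^ 2 *
      Real.exp (-s)) atTop (𝓝 0) := by
    have e : (fun s : ℝ => D * (1 + C * s ^ (2 * K + 2)) * (C * s ^ (2 * K)) ^ 2 *
        Real.exp (-s)) = fun s : ℝ => D * C ^ 2 * (s ^ (4 * K) * Real.exp (-s)) +
          D * C ^ 3 * (s ^ (6 * K + 2) * Real.exp (-s)) := by
      funext s
      ring
    rw [e]
    have h2 := (Real.tendsto_pow_mul_exp_neg_atTop_nhds_zero (4 * K)).const_mul (D * C ^ 2)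
    have h3 := (Real.tendsto_pow_mul_exp_neg_atTop_nhds_zero (6 * K + 2)).const_mul (D * C ^ 3)
    have h4 := h2.add h3
    simpa using h4
  have h2 := (h1.comp hs).eventually (gt_mem_nhds (show (0 : ℝ) < 1 by norm_num))
  have h3 : ∀ᶠ L : ℝ in atTop, A + B * Real.log L ≤ Real.sqrt L := by
    have e1 : (fun L : ℝ => A + B * Real.log L) =o[atTop] (fun L : ℝ => L ^ (1 / 2 : ℝ)) := by
      apply Asymptotics.IsLittleO.add
      · exact (Asymptotics.isLittleO_const_left.2 (Or.inr (by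
          have := tendsto_rpow_atTop (show (0 : ℝ) < 1 / 2 by norm_num)
          exact tendsto_norm_atTop_atTop.comp this)))
      · exact (isLittleO_log_rpow_atTop (by norm_num)).const_mul_left B
    have e2 := e1.def (show (0 : ℝ) < 1 by norm_num)
    filter_upwards [e2, eventually_ge_atTop 0] with L hL hL0
    rw [one_mul, Real.norm_of_nonneg (Real.rpow_nonneg hL0 _), ← Real.sqrt_eq_rpow] at hL
    exact (le_abs_self _).trans hL
  have h4 : ∀ᶠ L : ℝ in atTop, 2 / η ≤ Real.sqrt L := hs.eventually_ge_atTop _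
  filter_upwards [h2, h3, h4, eventually_ge_atTop 1,
    Real.tendsto_log_atTop.eventually_gt_atTop 0] with L g2 g3 g4 g5 g6
  have hL0 : (0 : ℝ) ≤ L := by linarith
  have hsq : Real.sqrt L * Real.sqrt L = L := Real.mul_self_sqrt hL0
  have hs1 : 0 < Real.sqrt L := Real.sqrt_pos.2 (by linarith)
  have f1 : Real.exp (-(η / 2 * L)) ≤ Real.exp (-Real.sqrt L) := by
    apply Real.exp_le_exp.2
    have e1 : 1 ≤ η / 2 * Real.sqrt L := by
      rw [div_le_iff₀ hη] at g4
      linarith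
    nlinarith
  have f2 : Real.exp (-(L / (A + B * Real.log L))) ≤ Real.exp (-Real.sqrt L) := by
    apply Real.exp_le_exp.2
    rw [neg_le_neg_iff]
    have h1 : 0 < A + B * Real.log L := by positivity
    rw [le_div_iff₀ h1]
    calc Real.sqrt L * (A + B * Real.log L) ≤ Real.sqrt L * Real.sqrt L :=
          mul_le_mul_of_nonneg_left g3 hs1.le
      _ = L := hsq
  have e3 : (Real.sqrt L) ^ 2 = L := Real.sq_sqrt hL0
  have f3 : C * L ^ K * L = C * (Real.sqrt L) ^ (2 * K + 2) := by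
    rw [pow_add, pow_mul, e3]
    ring
  have f4 : C * L ^ K = C * (Real.sqrt L) ^ (2 * K) := by
    rw [pow_mul, e3]
  calc D * (Real.exp (-(η / 2 * L)) + C * L ^ K * L * Real.exp (-(L / (A + B * Real.log L)))) *
      (C * L ^ K) ^ 2 ≤ D * (Real.exp (-Real.sqrt L) + C * L ^ K * L * Real.exp (-Real.sqrt L)) *
      (C * L ^ K) ^ 2 := by
        gcongr
    _ = D * (1 + C * (Real.sqrt L) ^ (2 * K + 2)) * (C * (Real.sqrt L) ^ (2 * K)) ^ 2 *
      Real.exp (-Real.sqrt L) := by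
        rw [f3, f4]
        ring
    _ ≤ 1 := g2.le

/-- the sum over the windows -/
theorem sum_windows_le (hm : Monotone w) (h2 : ∀ n, 2 ≤ w n) {A B : ℝ} (hB : 0 ≤ B)
    (hAB : ∀ z : ℕ, 2 ≤ z → (V z)⁻¹ ≤ A + B * Real.log z) {g Y N : ℕ} (hN : crit w g = N)
    {η L : ℝ} (hη : 0 < η) (hη1 : η < 1) (hL : Real.log N = L) (hL1 : 1 ≤ L) (hN3 : 3 ≤ N)
    (hwN : (w N : ℝ) ≤ L) (hY : Y < N) (hYL : Real.log Y ≤ (1 - η) * L) (hg : 1 ≤ g)
    (hR : (1 + η / 2) * (1 - η) * L ^ 2 ≤ Real.log ((N - 1 : ℕ) : ℝ) ^ 2) :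
    ∑ a ∈ Finset.Icc 1 (Y - g), Real.exp (-∑ n ∈ Finset.Ioc a (a + g), cgDens w n) ≤
      Real.exp (-(η / 2 * L)) + g * L * Real.exp (-(L / (A + B * Real.log L))) := by
  classical
  by_cases hgY : g ≤ Y
  swap
  · have e : Finset.Icc 1 (Y - g) = ∅ := by
      rw [Finset.Icc_eq_empty_iff]
      omega
    rw [e, Finset.sum_empty]
    positivity
  -- the single windows
  have hwin : ∀ a ∈ Finset.Icc 1 (Y - g),
      V (w (a + g)) / V (w (a + 1)) * ((1 + η / 2) * L) ≤
        ∑ n ∈ Finset.Ioc a (a + g), cgDens w n := by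
    intro a ha
    rw [Finset.mem_Icc] at ha
    have h3 := window_ge hm h2 (a := a) (g := g) (Y := Y) ha.1 (by omega)
    refine le_trans ?_ h3
    have h4 := below hm h2 (g := g) (n := a + g) (by omega) (by omega)
    rw [hN] at h4
    have hV1 := V_pos' (h2 (a + 1))
    have hV2 := V_pos' (h2 (a + g))
    have hY2 : (2 : ℝ) ≤ Y := by exact_mod_cast (show 2 ≤ Y by omega)
    have hlY : 0 < Real.log Y := Real.log_pos (by linarith)
    have h5 : (1 + η / 2) * L * Real.log Y ≤ Real.log ((N - 1 : ℕ) : ℝ) ^ 2 := by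
      refine le_trans ?_ hR
      calc (1 + η / 2) * L * Real.log Y ≤ (1 + η / 2) * L * ((1 - η) * L) :=
            mul_le_mul_of_nonneg_left hYL (by positivity)
        _ = _ := by ring
    rw [le_div_iff₀ (mul_pos hV1 hlY)]
    calc V (w (a + g)) / V (w (a + 1)) * ((1 + η / 2) * L) * (V (w (a + 1)) * Real.log Y)
        = V (w (a + g)) * ((1 + η / 2) * L * Real.log Y) := by
          field_simp
      _ ≤ V (w (a + g)) * Real.log ((N - 1 : ℕ) : ℝ) ^ 2 :=
          mul_le_mul_of_nonneg_left h5 hV2.le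
      _ ≤ _ := h4.le
  -- no jump
  have hA1 : ∀ a ∈ (Finset.Icc 1 (Y - g)).filter (fun a => ¬ w (a + 1) ≠ w (a + g)),
      Real.exp (-∑ n ∈ Finset.Ioc a (a + g), cgDens w n) ≤ Real.exp (-((1 + η / 2) * L)) := by
    intro a ha
    rw [Finset.mem_filter, not_not] at ha
    apply Real.exp_le_exp.2
    have h3 := hwin a ha.1
    rw [ha.2, div_self (V_pos' (h2 _)).ne', one_mul] at h3
    linarith
  -- jumps
  have hA2 : ∀ a ∈ (Finset.Icc 1 (Y - g)).filter (fun a => w (a + 1) ≠ w (a + g)),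
      Real.exp (-∑ n ∈ Finset.Ioc a (a + g), cgDens w n) ≤
        Real.exp (-(L / (A + B * Real.log L))) := by
    intro a ha
    rw [Finset.mem_filter] at ha
    have ha1 := Finset.mem_Icc.1 ha.1
    apply Real.exp_le_exp.2
    have h3 := hwin a ha.1
    have hV1 := V_pos' (h2 (a + 1))
    have hV2 := V_pos' (h2 (a + g))
    have h4 : V (w (a + g)) ≤ V (w (a + g)) / V (w (a + 1)) :=
      le_div_self hV2.le hV1 (V_le_one (h2 _))
    have h5 := hAB (w (a + g)) (h2 _)
    have hz : (w (a + g) : ℝ) ≤ L := by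
      refine le_trans ?_ hwN
      exact_mod_cast hm (show a + g ≤ N by omega)
    have hz2 : (2 : ℝ) ≤ w (a + g) := by exact_mod_cast h2 _
    have h6 : (V (w (a + g)))⁻¹ ≤ A + B * Real.log L := by
      refine h5.trans ?_
      have : Real.log (w (a + g)) ≤ Real.log L := Real.log_le_log (by linarith) hz
      have := mul_le_mul_of_nonneg_left this hB
      linarith
    have h7 : 0 < A + B * Real.log L := lt_of_lt_of_le (inv_pos.2 hV2) h6
    have h8 : L / (A + B * Real.log L) ≤ V (w (a + g)) * L := by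
      rw [div_le_iff₀ h7]
      have h9 : 1 ≤ V (w (a + g)) * (A + B * Real.log L) := by
        rw [inv_le_iff_one_le_mul₀' hV2] at h6
        exact h6
      calc L = 1 * L := (one_mul L).symm
        _ ≤ V (w (a + g)) * (A + B * Real.log L) * L :=
          mul_le_mul_of_nonneg_right h9 (by linarith)
        _ = _ := by ring
    have h9 : V (w (a + g)) * L ≤ V (w (a + g)) / V (w (a + 1)) * ((1 + η / 2) * L) := by
      apply mul_le_mul h4 _ (by linarith) (div_nonneg hV2.le hV1.le)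
      nlinarith
    linarith
  rw [← Finset.sum_filter_add_sum_filter_not (Finset.Icc 1 (Y - g))
    (fun a => w (a + 1) ≠ w (a + g)), add_comm]
  apply add_le_add
  · refine (Finset.sum_le_card_nsmul _ _ _ hA1).trans ?_
    rw [nsmul_eq_mul]
    have h3 : (((Finset.Icc 1 (Y - g)).filter (fun a => ¬ w (a + 1) ≠ w (a + g))).card : ℝ) ≤
        Real.exp L := by
      have h4 : ((Finset.Icc 1 (Y - g)).filter (fun a => ¬ w (a + 1) ≠ w (a + g))).card ≤ N := by
        refine (Finset.card_filter_le _ _).trans ?_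
        rw [Nat.card_Icc]
        omega
      have hN0 : (0 : ℝ) < N := by exact_mod_cast (show 0 < N by omega)
      rw [← hL, Real.exp_log hN0]
      exact_mod_cast h4
    calc (((Finset.Icc 1 (Y - g)).filter (fun a => ¬ w (a + 1) ≠ w (a + g))).card : ℝ) *
          Real.exp (-((1 + η / 2) * L)) ≤ Real.exp L * Real.exp (-((1 + η / 2) * L)) :=
          mul_le_mul_of_nonneg_right h3 (Real.exp_pos _).le
      _ = Real.exp (-(η / 2 * L)) := by
          rw [← Real.exp_add]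
          congr 1
          ring
  · refine (Finset.sum_le_card_nsmul _ _ _ hA2).trans ?_
    rw [nsmul_eq_mul]
    apply mul_le_mul_of_nonneg_right _ (Real.exp_pos _).le
    have h3 := card_jump hm hg hgY
    have h4 : (w (Y + 1) : ℝ) ≤ L := by
      refine le_trans ?_ hwN
      exact_mod_cast hm (show Y + 1 ≤ N by omega)
    calc (((Finset.Icc 1 (Y - g)).filter (fun a => w (a + 1) ≠ w (a + g))).card : ℝ) ≤
          ((g * w (Y + 1) : ℕ) : ℝ) := by exact_mod_cast h3
      _ = g * w (Y + 1) := by push_cast; ring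
      _ ≤ g * L := mul_le_mul_of_nonneg_left h4 (Nat.cast_nonneg _)

/-- the facts about a large critical point -/
theorem ev (hw : (fun n => (w n : ℝ)) =o[atTop] (fun n : ℕ => Real.log n)) {η : ℝ} (hη : 0 < η)
    (hη1 : η < 1) : ∀ᶠ N : ℕ in atTop, 3 ≤ N ∧ 1 ≤ Real.log N ∧ (w N : ℝ) ≤ Real.log N ∧
      (1 + η / 2) * (1 - η) * Real.log N ^ 2 ≤ Real.log ((N - 1 : ℕ) : ℝ) ^ 2 ∧
      ⌊(N : ℝ) ^ (1 - η)⌋₊ < N ∧
      Real.log ⌊(N : ℝ) ^ (1 - η)⌋₊ ≤ (1 - η) * Real.log N := by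
  have hlog : Tendsto (fun n : ℕ => Real.log (n : ℝ)) atTop atTop :=
    Real.tendsto_log_atTop.comp tendsto_natCast_atTop_atTop
  filter_upwards [eventually_ge_atTop 3, hlog.eventually_ge_atTop (1 + 4 * Real.log 2 / η),
    hw.def (show (0 : ℝ) < 1 by norm_num)] with N h3 h4 h5
  have hl2 : 0 < Real.log 2 := Real.log_pos (by norm_num)
  have hN3 : (3 : ℝ) ≤ N := by exact_mod_cast h3
  have hL1 : 1 ≤ Real.log (N : ℝ) := by
    have : 0 ≤ 4 * Real.log 2 / η := by positivity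
    linarith
  rw [Real.norm_of_nonneg (Nat.cast_nonneg _), Real.norm_of_nonneg (by linarith), one_mul] at h5
  refine ⟨h3, hL1, h5, ?_, ?_, ?_⟩
  · have e1 : Real.log (N : ℝ) - Real.log 2 ≤ Real.log ((N - 1 : ℕ) : ℝ) := by
      rw [← Real.log_div (by linarith) (by norm_num)]
      apply Real.log_le_log (by linarith)
      rw [Nat.cast_sub (by omega), Nat.cast_one]
      linarith
    have e2 : 4 * Real.log 2 ≤ η * Real.log N := by
      have : 4 * Real.log 2 / η ≤ Real.log N := by linarith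
      rw [div_le_iff₀ hη] at this
      linarith
    have e3 : 0 ≤ Real.log (N : ℝ) - Real.log 2 := by nlinarith
    have e4 : (Real.log (N : ℝ) - Real.log 2) ^ 2 ≤ Real.log ((N - 1 : ℕ) : ℝ) ^ 2 :=
      pow_le_pow_left₀ e3 e1 2
    refine le_trans ?_ e4
    nlinarith [mul_pos hη hη]
  · have e1 : (N : ℝ) ^ (1 - η) < N := by
      calc (N : ℝ) ^ (1 - η) < (N : ℝ) ^ (1 : ℝ) :=
            Real.rpow_lt_rpow_of_exponent_lt (by linarith) (by linarith)
        _ = N := Real.rpow_one _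
    exact (Nat.floor_lt (by positivity)).2 e1
  · have e2 : (0 : ℝ) < (N : ℝ) ^ (1 - η) := Real.rpow_pos_of_pos (by linarith) _
    have e3 : 1 ≤ (N : ℝ) ^ (1 - η) := Real.one_le_rpow (by linarith) (by linarith)
    have e4 : 1 ≤ ⌊(N : ℝ) ^ (1 - η)⌋₊ := Nat.le_floor (by exact_mod_cast e3)
    have e5 : (0 : ℝ) < (⌊(N : ℝ) ^ (1 - η)⌋₊ : ℝ) := by exact_mod_cast e4
    calc Real.log ⌊(N : ℝ) ^ (1 - η)⌋₊ ≤ Real.log ((N : ℝ) ^ (1 - η)) :=
          Real.log_le_log e5 (Nat.floor_le e2.le)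
      _ = _ := Real.log_rpow (by linarith) _

open EMPM in
/-- **no gap of length `g` below `crit ^ (1 - η)`** -/
theorem low (hm : Monotone w) (h2 : ∀ n, 2 ≤ w n)
    (hw : (fun n => (w n : ℝ)) =o[atTop] (fun n : ℕ => Real.log n)) {η : ℝ} (hη : 0 < η)
    (hη1 : η < 1) (Ω : Type u) (m0 : MeasurableSpace Ω) (μ : Measure Ω)
    (hμ : IsProbabilityMeasure μ) (B : ℕ → Set Ω) (hB : ∀ n, MeasurableSet (B n))
    (hI : iIndepSet B μ) (hdB : ∀ᶠ n in atTop, μ.real (B n) = cgDens w n) :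
    ∀ᵐ ω ∂μ, ∀ᶠ g : ℕ in atTop, ∀ a : ℕ, 1 ≤ a → a + g ≤ ⌊(crit w g : ℝ) ^ (1 - η)⌋₊ →
      ∃ n ∈ Finset.Ioc a (a + g), ω ∈ B n := by
  have := hμ
  obtain ⟨N0, hN0⟩ := eventually_atTop.1 hdB
  obtain ⟨C, hC, K, hg⟩ := crit_growth hm h2 hw
  obtain ⟨A1, B1, hA1, hB1, hAB⟩ := inv_V_log
  set D : ℝ := Real.exp (∑ n ∈ Finset.range N0, cgDens w n) with hD
  have hD0 : 0 < D := Real.exp_pos _
  set Y : ℕ → ℕ := fun g => ⌊(crit w g : ℝ) ^ (1 - η)⌋₊ with hY
  set F : ℕ → Set Ω := fun g => ⋃ a ∈ Finset.Icc 1 (Y g - g), Ev B ∅ (Finset.Ioc a (a + g))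
    with hF
  have hcr := crit_tendsto hm h2
  have hlogc : Tendsto (fun g : ℕ => Real.log (crit w g : ℝ)) atTop atTop :=
    Real.tendsto_log_atTop.comp (tendsto_natCast_atTop_atTop.comp hcr)
  have hFm : ∀ᶠ g : ℕ in atTop, μ (F g) ≤ ENNReal.ofReal ((g : ℝ) ^ (-(2 : ℝ))) := by
    filter_upwards [hg, hcr.eventually (ev hw hη hη1),
      hlogc.eventually (tail A1 B1 D C η K hA1 hB1 hD0.le hC hη), eventually_ge_atTop 1]
      with g g1 g2 g3 g4
    obtain ⟨e1, e2, e3, e4, e5, e6⟩ := g2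
    have hg1 : (1 : ℝ) ≤ g := by exact_mod_cast g4
    have h3 := sum_windows_le hm h2 hB1 hAB (g := g) (Y := Y g) (N := crit w g) rfl hη hη1 rfl
      e2 e1 e3 e5 e6 g4 e4
    set L := Real.log (crit w g : ℝ) with hL
    have h4 : μ.real (F g) ≤ D * (Real.exp (-(η / 2 * L)) +
        g * L * Real.exp (-(L / (A1 + B1 * Real.log L)))) := by
      calc μ.real (F g) ≤ ∑ a ∈ Finset.Icc 1 (Y g - g),
            μ.real (Ev B ∅ (Finset.Ioc a (a + g))) := measureReal_biUnion_finset_le _ _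
        _ ≤ ∑ a ∈ Finset.Icc 1 (Y g - g),
            D * Real.exp (-∑ n ∈ Finset.Ioc a (a + g), cgDens w n) := by
            refine Finset.sum_le_sum fun a _ => ?_
            rw [Ev_real hB hI _ ∅ (Finset.disjoint_empty_left _), Finset.prod_empty, one_mul]
            exact prod_le h2 (fun n => μ.real (B n)) (fun n => measureReal_nonneg)
              (fun n => measureReal_le_one) N0 hN0 _
        _ = D * ∑ a ∈ Finset.Icc 1 (Y g - g),
            Real.exp (-∑ n ∈ Finset.Ioc a (a + g), cgDens w n) := by rw [Finset.mul_sum]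
        _ ≤ _ := mul_le_mul_of_nonneg_left h3 hD0.le
    have h5 : D * (Real.exp (-(η / 2 * L)) +
        g * L * Real.exp (-(L / (A1 + B1 * Real.log L)))) ≤ (g : ℝ) ^ (-(2 : ℝ)) := by
      rw [Real.rpow_neg (by linarith), Real.rpow_two, ← one_div, le_div_iff₀ (by positivity)]
      refine le_trans ?_ g3
      have hL0 : 0 ≤ L := by linarith
      have e7 : (g : ℝ) ^ 2 ≤ (C * L ^ K) ^ 2 := pow_le_pow_left₀ (by linarith) g1 2
      have e8 : g * L * Real.exp (-(L / (A1 + B1 * Real.log L))) ≤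
          C * L ^ K * L * Real.exp (-(L / (A1 + B1 * Real.log L))) := by gcongr
      gcongr
    rw [← ENNReal.ofReal_toReal (measure_ne_top μ _)]
    exact ENNReal.ofReal_le_ofReal (h4.trans h5)
  filter_upwards [ae_eventually_notMem (UPHM.tsum_ne_top hFm)] with ω h1
  filter_upwards [h1] with g hgF a ha1 haY
  by_contra hcon
  push Not at hcon
  apply hgF
  rw [hF]
  simp only [Set.mem_iUnion]
  refine ⟨a, Finset.mem_Icc.2 ⟨ha1, ?_⟩, ?_⟩
  · change a ≤ ⌊(crit w g : ℝ) ^ (1 - η)⌋₊ - g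
    omega
  exact ⟨fun n hn => absurd hn (Finset.notMem_empty n), hcon⟩

end Pool.Agent.Lib.MP_926cc3_nt.XG
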