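import Pool.Agent.Lib.MP_926cc3_nt.XG.Low
import Pool.Agent.Lib.MP_926cc3_nt.TH.ADP

/-!
# No gap of length `g` below `crit ^ (1 - η)`, adapted random sets
-/

set_option autoImplicit false

open Filter Topology MeasureTheory ProbabilityTheory Asymptotics

namespace Pool.Agent.Lib.MP_926cc3_nt.XG

open Pool.Agent.Lib.MP_926cc3_nt.RS Pool.Agent.Lib.MP_926cc3_nt.RS.Dens
  Pool.Agent.Lib.MP_926cc3_nt.TH Pool.Agent.Lib.MP_926cc3_nt.TH.ADPM

universe u

variable {w : ℕ → ℕ}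

/-- the sum over the windows, with a loss `1 - η / 8` in the exponent -/
theorem sum_windows_leA (hm : Monotone w) (h2 : ∀ n, 2 ≤ w n) {A B : ℝ} (hB : 0 ≤ B)
    (hAB : ∀ z : ℕ, 2 ≤ z → (V z)⁻¹ ≤ A + B * Real.log z) {g Y N : ℕ} (hN : crit w g = N)
    {η L : ℝ} (hη : 0 < η) (hη1 : η < 1) (hL : Real.log N = L) (hL1 : 1 ≤ L) (hN3 : 3 ≤ N)
    (hwN : (w N : ℝ) ≤ L) (hY : Y < N) (hYL : Real.log Y ≤ (1 - η) * L) (hg : 1 ≤ g)
    (hR : (1 + η / 2) * (1 - η) * L ^ 2 ≤ Real.log ((N - 1 : ℕ) : ℝ) ^ 2) :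
    ∑ a ∈ Finset.Icc 1 (Y - g),
        Real.exp (-((1 - η / 8) * ∑ n ∈ Finset.Ioc a (a + g), cgDens w n)) ≤
      Real.exp (-(η / 2 / 2 * L)) + g * L * Real.exp (-(L / (A + B * Real.log L))) := by
  classical
  by_cases hgY : g ≤ Y
  swap
  · have e : Finset.Icc 1 (Y - g) = ∅ := by
      rw [Finset.Icc_eq_empty_iff]
      omega
    rw [e, Finset.sum_empty]
    positivity
  have hfac : 1 + η / 4 ≤ (1 - η / 8) * (1 + η / 2) := by nlinarith
  have hfac0 : 0 < 1 - η / 8 := by linarith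
  -- the single windows
  have hwin : ∀ a ∈ Finset.Icc 1 (Y - g),
      V (w (a + g)) / V (w (a + 1)) * ((1 + η / 4) * L) ≤
        (1 - η / 8) * ∑ n ∈ Finset.Ioc a (a + g), cgDens w n := by
    intro a ha
    rw [Finset.mem_Icc] at ha
    have hV1 := V_pos' (h2 (a + 1))
    have hV2 := V_pos' (h2 (a + g))
    have h3 := window_ge hm h2 (a := a) (g := g) (Y := Y) ha.1 (by omega)
    have h3' : V (w (a + g)) / V (w (a + 1)) * ((1 + η / 2) * L) ≤
        ∑ n ∈ Finset.Ioc a (a + g), cgDens w n := by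
      refine le_trans ?_ h3
      have h4 := below hm h2 (g := g) (n := a + g) (by omega) (by omega)
      rw [hN] at h4
      have hY2 : (2 : ℝ) ≤ Y := by exact_mod_cast (show 2 ≤ Y by omega)
      have hlY : 0 < Real.log Y := Real.log_pos (by linarith)
      have h5 : (1 + η / 2) * L * Real.log Y ≤ Real.log ((N - 1 : ℕ) : ℝ) ^ 2 := by
        refine le_trans ?_ hR
        calc (1 + η / 2) * L * Real.log Y ≤ (1 + η / 2) * L * ((1 - η) * L) :=
              mul_le_mul_of_nonneg_left hYL (by positivity)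
          _ = _ := by ring
      rw [le_div_iff₀ (mul_pos hV1 hlY)]
      calc V (w (a + g)) / V (w (a + 1)) * ((1 + η / 2) * L) * (V (w (a + 1)) * Real.log Y)
          = V (w (a + g)) * ((1 + η / 2) * L * Real.log Y) := by
            field_simp
        _ ≤ V (w (a + g)) * Real.log ((N - 1 : ℕ) : ℝ) ^ 2 :=
            mul_le_mul_of_nonneg_left h5 hV2.le
        _ ≤ _ := h4.le
    have hq : 0 ≤ V (w (a + g)) / V (w (a + 1)) := div_nonneg hV2.le hV1.le
    calc V (w (a + g)) / V (w (a + 1)) * ((1 + η / 4) * L)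
        ≤ V (w (a + g)) / V (w (a + 1)) * (((1 - η / 8) * (1 + η / 2)) * L) := by
          apply mul_le_mul_of_nonneg_left _ hq
          exact mul_le_mul_of_nonneg_right hfac (by linarith)
      _ = (1 - η / 8) * (V (w (a + g)) / V (w (a + 1)) * ((1 + η / 2) * L)) := by ring
      _ ≤ _ := mul_le_mul_of_nonneg_left h3' hfac0.le
  -- no jump
  have hA1 : ∀ a ∈ (Finset.Icc 1 (Y - g)).filter (fun a => ¬ w (a + 1) ≠ w (a + g)),
      Real.exp (-((1 - η / 8) * ∑ n ∈ Finset.Ioc a (a + g), cgDens w n)) ≤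
        Real.exp (-((1 + η / 4) * L)) := by
    intro a ha
    rw [Finset.mem_filter, not_not] at ha
    apply Real.exp_le_exp.2
    have h3 := hwin a ha.1
    rw [ha.2, div_self (V_pos' (h2 _)).ne', one_mul] at h3
    linarith
  -- jumps
  have hA2 : ∀ a ∈ (Finset.Icc 1 (Y - g)).filter (fun a => w (a + 1) ≠ w (a + g)),
      Real.exp (-((1 - η / 8) * ∑ n ∈ Finset.Ioc a (a + g), cgDens w n)) ≤
        Real.exp (-(L / (A + B * Real.log L))) := by
    intro a ha
    rw [Finset.mem_filter] at ha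
    have ha1 := Finset.mem_Icc.1 ha.1
    apply Real.exp_le_exp.2
    have h3 := hwin a ha.1
    have hV1 := V_pos' (h2 (a + 1))
    have hV2 := V_pos' (h2 (a + g))
    have h4 : V (w (a + g)) ≤ V (w (a + g)) / V (w (a + 1)) :=
      le_div_self hV2.le hV1 (V_le_one (h2 _))
    have h5 := hAB (w (a + g)) (h2 _)
    have hz : (w (a + g) : ℝ) ≤ L := by
      refine le_trans ?_ hwN
      exact_mod_cast hm (show a + g ≤ N by omega)
    have hz2 : (2 : ℝ) ≤ w (a + g) := by exact_mod_cast h2 _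
    have h6 : (V (w (a + g)))⁻¹ ≤ A + B * Real.log L := by
      refine h5.trans ?_
      have : Real.log (w (a + g)) ≤ Real.log L := Real.log_le_log (by linarith) hz
      have := mul_le_mul_of_nonneg_left this hB
      linarith
    have h7 : 0 < A + B * Real.log L := lt_of_lt_of_le (inv_pos.2 hV2) h6
    have h8 : L / (A + B * Real.log L) ≤ V (w (a + g)) * L := by
      rw [div_le_iff₀ h7]
      have h9 : 1 ≤ V (w (a + g)) * (A + B * Real.log L) := by
        rw [inv_le_iff_one_le_mul₀' hV2] at h6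
        exact h6
      calc L = 1 * L := (one_mul L).symm
        _ ≤ V (w (a + g)) * (A + B * Real.log L) * L :=
          mul_le_mul_of_nonneg_right h9 (by linarith)
        _ = _ := by ring
    have h9 : V (w (a + g)) * L ≤ V (w (a + g)) / V (w (a + 1)) * ((1 + η / 4) * L) := by
      apply mul_le_mul h4 _ (by linarith) (div_nonneg hV2.le hV1.le)
      nlinarith
    linarith
  rw [← Finset.sum_filter_add_sum_filter_not (Finset.Icc 1 (Y - g))
    (fun a => w (a + 1) ≠ w (a + g)), add_comm]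
  apply add_le_add
  · refine (Finset.sum_le_card_nsmul _ _ _ hA1).trans ?_
    rw [nsmul_eq_mul]
    have h3 : (((Finset.Icc 1 (Y - g)).filter (fun a => ¬ w (a + 1) ≠ w (a + g))).card : ℝ) ≤
        Real.exp L := by
      have h4 : ((Finset.Icc 1 (Y - g)).filter (fun a => ¬ w (a + 1) ≠ w (a + g))).card ≤ N := by
        refine (Finset.card_filter_le _ _).trans ?_
        rw [Nat.card_Icc]
        omega
      have hN0 : (0 : ℝ) < N := by exact_mod_cast (show 0 < N by omega)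
      rw [← hL, Real.exp_log hN0]
      exact_mod_cast h4
    calc (((Finset.Icc 1 (Y - g)).filter (fun a => ¬ w (a + 1) ≠ w (a + g))).card : ℝ) *
          Real.exp (-((1 + η / 4) * L)) ≤ Real.exp L * Real.exp (-((1 + η / 4) * L)) :=
          mul_le_mul_of_nonneg_right h3 (Real.exp_pos _).le
      _ = Real.exp (-(η / 2 / 2 * L)) := by
          rw [← Real.exp_add]
          congr 1
          ring
  · refine (Finset.sum_le_card_nsmul _ _ _ hA2).trans ?_
    rw [nsmul_eq_mul]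
    apply mul_le_mul_of_nonneg_right _ (Real.exp_pos _).le
    have h3 := card_jump hm hg hgY
    have h4 : (w (Y + 1) : ℝ) ≤ L := by
      refine le_trans ?_ hwN
      exact_mod_cast hm (show Y + 1 ≤ N by omega)
    calc (((Finset.Icc 1 (Y - g)).filter (fun a => w (a + 1) ≠ w (a + g))).card : ℝ) ≤
          ((g * w (Y + 1) : ℕ) : ℝ) := by exact_mod_cast h3
      _ = g * w (Y + 1) := by push_cast; ring
      _ ≤ g * L := mul_le_mul_of_nonneg_left h4 (Nat.cast_nonneg _)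

variable {Ω : Type u} [m0 : MeasurableSpace Ω] {μ : Measure Ω} [IsProbabilityMeasure μ]
  {ℱ : Filtration ℕ m0} {R : Ω → Set ℕ} {d : ℕ → Ω → ℝ}

/-- **no gap of length `g` below `crit ^ (1 - η)`**, adapted random sets -/
theorem lowA (h : Dens μ ℱ R d) (hm : Monotone w) (h2 : ∀ n, 2 ≤ w n)
    (hw : (fun n => (w n : ℝ)) =o[atTop] (fun n : ℕ => Real.log n))
    (hlo : (fun n => Real.log (w n)) =o[atTop] (fun n : ℕ => Real.log n))
    (hdg : ∀ᵐ ω ∂μ, (fun n => d n ω) ~[atTop] cgDens w) {η : ℝ} (hη : 0 < η)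
    (hη1 : η < 1) :
    ∀ᵐ ω ∂μ, ∀ᶠ g : ℕ in atTop, ∀ a : ℕ, 1 ≤ a → a + g ≤ ⌊(crit w g : ℝ) ^ (1 - η)⌋₊ →
      ∃ n ∈ Finset.Ioc a (a + g), n ∈ R ω := by
  obtain ⟨C, hC, K, hg⟩ := crit_growth hm h2 hw
  obtain ⟨A1, B1, hA1, hB1, hAB⟩ := inv_V_log
  set Y : ℕ → ℕ := fun g => ⌊(crit w g : ℝ) ^ (1 - η)⌋₊ with hY
  set s : ℕ → ℕ → ℝ := fun g a => (1 - η / 8) * ∑ n ∈ Finset.Ioc a (a + g), cgDens w n with hs
  set F : ℕ → Set Ω := fun g => ⋃ a ∈ Finset.Icc 1 (Y g - g),
    EmptyBig R d (a + 1) (a + g + 1) (s g a) with hF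
  have hcr := crit_tendsto hm h2
  have hlogc : Tendsto (fun g : ℕ => Real.log (crit w g : ℝ)) atTop atTop :=
    Real.tendsto_log_atTop.comp (tendsto_natCast_atTop_atTop.comp hcr)
  have hFm : ∀ᶠ g : ℕ in atTop, μ (F g) ≤ ENNReal.ofReal ((g : ℝ) ^ (-(2 : ℝ))) := by
    filter_upwards [hg, hcr.eventually (ev hw hη hη1),
      hlogc.eventually (tail A1 B1 1 C (η / 2) K hA1 hB1 zero_le_one hC (by linarith)),
      eventually_ge_atTop 1] with g g1 g2 g3 g4
    obtain ⟨e1, e2, e3, e4, e5, e6⟩ := g2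
    have hg1 : (1 : ℝ) ≤ g := by exact_mod_cast g4
    have h3 := sum_windows_leA hm h2 hB1 hAB (g := g) (Y := Y g) (N := crit w g) rfl hη hη1 rfl
      e2 e1 e3 e5 e6 g4 e4
    set L := Real.log (crit w g : ℝ) with hL
    have h4 : μ (F g) ≤ ENNReal.ofReal (Real.exp (-(η / 2 / 2 * L)) +
        g * L * Real.exp (-(L / (A1 + B1 * Real.log L)))) := by
      calc μ (F g) ≤ ∑ a ∈ Finset.Icc 1 (Y g - g),
            μ (EmptyBig R d (a + 1) (a + g + 1) (s g a)) := measure_biUnion_finset_le _ _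
        _ ≤ ∑ a ∈ Finset.Icc 1 (Y g - g), ENNReal.ofReal (Real.exp (-(s g a))) :=
            Finset.sum_le_sum fun a _ => h.measure_emptyBig (by omega) (by omega) _
        _ = ENNReal.ofReal (∑ a ∈ Finset.Icc 1 (Y g - g), Real.exp (-(s g a))) :=
            (ENNReal.ofReal_sum_of_nonneg fun a _ => (Real.exp_pos _).le).symm
        _ ≤ _ := ENNReal.ofReal_le_ofReal h3
    refine h4.trans (ENNReal.ofReal_le_ofReal ?_)
    rw [Real.rpow_neg (by linarith), Real.rpow_two, ← one_div, le_div_iff₀ (by positivity)]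
    refine le_trans ?_ g3
    have hL0 : 0 ≤ L := by linarith
    have e7 : (g : ℝ) ^ 2 ≤ (C * L ^ K) ^ 2 := pow_le_pow_left₀ (by linarith) g1 2
    have e8 : g * L * Real.exp (-(L / (A1 + B1 * Real.log L))) ≤
        C * L ^ K * L * Real.exp (-(L / (A1 + B1 * Real.log L))) := by gcongr
    rw [one_mul]
    gcongr
  filter_upwards [ae_eventually_notMem (UPHM.tsum_ne_top hFm), hdg,
    denseA h hm h2 hlo hdg] with ω h1 h3 h4
  obtain ⟨N0, hN0⟩ := eventually_atTop.1 (le_of_equiv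
    (Eventually.of_forall (UPHM.cg_nonneg h2)) h3 (show (0 : ℝ) < η / 8 by linarith))
  obtain ⟨x, ⟨n0, h5, h6, -⟩, hx⟩ := (h4.and (eventually_ge_atTop (N0 + 1))).exists
  filter_upwards [h1, eventually_ge_atTop n0] with g hgF hgn a ha1 haY
  by_cases haN : a < N0
  · exact ⟨n0, Finset.mem_Ioc.2 ⟨by omega, by omega⟩, h5⟩
  push Not at haN
  by_contra hcon
  push Not at hcon
  apply hgF
  rw [hF]
  simp only [Set.mem_iUnion]
  refine ⟨a, Finset.mem_Icc.2 ⟨ha1, ?_⟩, ?_⟩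
  · change a ≤ ⌊(crit w g : ℝ) ^ (1 - η)⌋₊ - g
    omega
  refine ⟨fun n hn1 hn2 => hcon n (Finset.mem_Ioc.2 ⟨by omega, by omega⟩), ?_⟩
  have e : Finset.Ico (a + 1) (a + g + 1) = Finset.Ioc a (a + g) := by
    ext n
    rw [Finset.mem_Ico, Finset.mem_Ioc]
    omega
  rw [e, hs]
  change (1 - η / 8) * ∑ n ∈ Finset.Ioc a (a + g), cgDens w n ≤ _
  rw [Finset.mul_sum]
  refine Finset.sum_le_sum fun n hn => ?_
  rw [Finset.mem_Ioc] at hn
  exact (hN0 n (by omega)).1

end Pool.Agent.Lib.MP_926cc3_nt.XG
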