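import Pool.Agent.Lib.MP_926cc3_nt.XG.Spec
import Pool.Agent.Lib.MP_926cc3_nt.TH.PIE
import Pool.Agent.Lib.MP_926cc3_nt.TH.SEL

/-!
# Module WIN: many disjoint windows of length `g` of small density sum
-/

set_option autoImplicit false

open Filter Topology MeasureTheory ProbabilityTheory

namespace Pool.Agent.Lib.MP_926cc3_nt.XG

open Pool.Agent.Lib.MP_926cc3_nt.RS Pool.Agent.Lib.MP_926cc3_nt.TH
  Pool.Agent.Lib.MP_926cc3_nt.TH.UPHM

namespace WinM

theorem pr_pos (z : ℕ) : 0 < pr z :=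
  Finset.prod_pos fun _ hq => (Finset.mem_filter.1 hq).2.pos

theorem pr_le (z : ℕ) : pr z ≤ 4 ^ z := by
  rcases Nat.eq_zero_or_pos z with h | h
  · subst h
    simp [pr]
  · have e : pr z = primorial (z - 1) := by
      unfold pr primorial
      have : z - 1 + 1 = z := by omega
      rw [this]
    rw [e]
    exact (primorial_le_four_pow (z - 1)).trans (Nat.pow_le_pow_right (by norm_num) (by omega))

/-- `w (2 x) ≤ c log x` -/
theorem w_small {w : ℕ → ℕ} (hw : (fun n => (w n : ℝ)) =o[atTop] (fun n : ℕ => Real.log n))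
    (c : ℝ) (hc : 0 < c) : ∀ᶠ x : ℕ in atTop, (w (2 * x) : ℝ) ≤ c * Real.log x := by
  have h1 : Tendsto (fun x : ℕ => 2 * x) atTop atTop :=
    tendsto_id.const_mul_atTop' (by norm_num : 0 < 2)
  filter_upwards [h1.eventually (hw.def (show 0 < c / 2 by linarith)), eventually_ge_atTop 2]
    with x hx hx2
  have hx2' : (2 : ℝ) ≤ x := by exact_mod_cast hx2
  rw [Real.norm_eq_abs, Real.norm_eq_abs, abs_of_nonneg (Nat.cast_nonneg _), abs_of_nonneg
    (Real.log_natCast_nonneg _)] at hx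
  have h3 : Real.log ((2 * x : ℕ) : ℝ) ≤ 2 * Real.log x := by
    have e : 2 * Real.log (x : ℝ) = Real.log ((x : ℝ) ^ 2) := by
      rw [Real.log_pow]; norm_num
    rw [e]
    apply Real.log_le_log (by positivity)
    push_cast
    nlinarith
  nlinarith

/-- the numerical lemma -/
theorem num {σ C : ℝ} (hσ : 0 < σ) (hσ4 : σ ≤ 1 / 4) (K : ℕ) :
    ∀ᶠ x : ℕ in atTop, ∀ P g M : ℕ, P = ⌊(x : ℝ) ^ (1 - σ) / 2⌋₊ → 1 ≤ M → g ≤ M →
      (g : ℝ) ≤ C * Real.log x ^ K → (M : ℝ) ≤ (x : ℝ) ^ (σ / 2) * g →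
      2 * M ≤ P ∧ (x : ℝ) ^ (1 - 3 * σ) ≤ (((P - 2 * M) / M : ℕ) : ℝ) := by
  filter_upwards [SELM.pow_log_le (σ / 4) (by linarith) K,
    SELM.large (σ / 4) (by linarith) (8 * |C| + 8),
    SELM.large (1 - 2 * σ) (by linarith) 4, SELM.large σ hσ 1,
    eventually_ge_atTop 2] with x h1 h2 h3 h4 hx
  intro P g M hP hM1 hgM hg hM
  have hxr : (2 : ℝ) ≤ x := by exact_mod_cast hx
  have hx0 : (0 : ℝ) < x := by linarith
  have hs2 : 0 < (x : ℝ) ^ (σ / 2) := by positivity
  have hs4 : 0 < (x : ℝ) ^ (σ / 4) := by positivity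
  have hY : (x : ℝ) ^ σ = (x : ℝ) ^ (σ / 2) * ((x : ℝ) ^ (σ / 4) * (x : ℝ) ^ (σ / 4)) := by
    rw [← Real.rpow_add hx0, ← Real.rpow_add hx0]; congr 1; ring
  have hlog : 0 ≤ Real.log (x : ℝ) ^ K := pow_nonneg (Real.log_natCast_nonneg _) _
  have hg2 : (g : ℝ) ≤ |C| * (x : ℝ) ^ (σ / 4) := by
    calc (g : ℝ) ≤ C * Real.log x ^ K := hg
      _ ≤ |C| * Real.log x ^ K := mul_le_mul_of_nonneg_right (le_abs_self C) hlog
      _ ≤ _ := mul_le_mul_of_nonneg_left h1 (abs_nonneg C)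
  have hM8 : 8 * (M : ℝ) ≤ (x : ℝ) ^ σ := by
    rw [hY]
    have h5 : 8 * (g : ℝ) ≤ (x : ℝ) ^ (σ / 4) * (x : ℝ) ^ (σ / 4) := by
      have h6 : (8 * |C|) * (x : ℝ) ^ (σ / 4) ≤ (x : ℝ) ^ (σ / 4) * (x : ℝ) ^ (σ / 4) :=
        mul_le_mul_of_nonneg_right (by linarith) hs4.le
      linarith
    have h6 := mul_le_mul_of_nonneg_left h5 hs2.le
    linarith
  have hPr : (x : ℝ) ^ (1 - σ) / 2 - 1 < P := by
    rw [hP]; exact Nat.sub_one_lt_floor _
  have hMr : (1 : ℝ) ≤ M := by exact_mod_cast hM1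
  have h12 : (x : ℝ) ^ (1 - σ) = (x : ℝ) ^ (1 - 2 * σ) * (x : ℝ) ^ σ := by
    rw [← Real.rpow_add hx0]; congr 1; ring
  have hX : 0 < (x : ℝ) ^ (1 - 2 * σ) := by positivity
  -- `4 X M ≤ P + 1`
  have h13 : 4 * (x : ℝ) ^ (1 - 2 * σ) * M ≤ (x : ℝ) ^ (1 - σ) / 2 := by
    rw [h12]
    have := mul_le_mul_of_nonneg_left hM8 hX.le
    linarith
  have h14 : 3 * (x : ℝ) ^ (1 - 2 * σ) * M ≤ P := by
    nlinarith
  have h15 : 2 * M ≤ P := by
    have : (2 : ℝ) * M ≤ P := by nlinarith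
    exact_mod_cast this
  refine ⟨h15, ?_⟩
  have h16 : (x : ℝ) ^ (1 - 3 * σ) ≤ (x : ℝ) ^ (1 - 2 * σ) :=
    Real.rpow_le_rpow_of_exponent_le (by linarith) (by linarith)
  have h17 := Nat.lt_div_mul_add (a := P - 2 * M) (b := M) (by omega)
  have h18 : ((P - 2 * M : ℕ) : ℝ) < (((P - 2 * M) / M * M + M : ℕ) : ℝ) := by
    exact_mod_cast h17
  rw [Nat.cast_sub h15] at h18
  push_cast at h18
  set Q : ℝ := (((P - 2 * M) / M : ℕ) : ℝ) with hQ
  have h19 : (3 * (x : ℝ) ^ (1 - 2 * σ) - 3) * M < Q * M := by nlinarith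
  have h20 : 3 * (x : ℝ) ^ (1 - 2 * σ) - 3 < Q := lt_of_mul_lt_mul_right h19 (by linarith)

  linarith

end WinM

open WinM in
theorem specWIN : SpecWIN := by
  classical
  intro w hm h2 hw η C K hη hη1
  set σ : ℝ := η / 6 with hσdef
  have hσ : 0 < σ := by positivity
  have hσ4 : σ ≤ 1 / 4 := by rw [hσdef]; linarith
  have hl4 : 0 < Real.log 4 := Real.log_pos (by norm_num)
  set δ : ℝ := σ / (2 * Real.log 4) with hδdef
  have hδ : 0 < δ := by positivity
  filter_upwards [w_small hw δ hδ, num (C := C) hσ hσ4 K, w_small hw 1 one_pos,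
    SELM.log_le_rpow (σ / 2) (by linarith), SELM.large (σ / 2) (by linarith) 3,
    eventually_ge_atTop 3] with x hwδ hnum hw1 hlr hlg hx3
  intro g hg1 hgC hg
  have hx3' : (3 : ℝ) ≤ x := by exact_mod_cast hx3
  have hx0 : (0 : ℝ) < x := by linarith
  have hlx : 0 < Real.log (x : ℝ) := Real.log_pos (by linarith)
  set J := ⌊(x : ℝ) ^ σ⌋₊ with hJdef
  set P := ⌊(x : ℝ) ^ (1 - σ) / 2⌋₊ with hPdef
  have hwJ : w (2 * x) < J := by
    have h3 : (x : ℝ) ^ σ = (x : ℝ) ^ (σ / 2) * (x : ℝ) ^ (σ / 2) := by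
      rw [← Real.rpow_add hx0]; congr 1; ring
    have h4 : (w (2 * x) : ℝ) + 1 ≤ (x : ℝ) ^ σ := by
      rw [h3]
      nlinarith
    have h5 : w (2 * x) + 1 ≤ J := by
      apply Nat.le_floor
      push_cast
      exact h4
    omega
  have hJP : 2 * (J * P) ≤ x := by
    have h1 : (J : ℝ) ≤ (x : ℝ) ^ σ := Nat.floor_le (by positivity)
    have h3 : (P : ℝ) ≤ (x : ℝ) ^ (1 - σ) / 2 := Nat.floor_le (by positivity)
    have h4 : (2 : ℝ) * (J * P) ≤ x := by
      calc (2 : ℝ) * (J * P) ≤ 2 * ((x : ℝ) ^ σ * ((x : ℝ) ^ (1 - σ) / 2)) := by gcongr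
        _ = (x : ℝ) ^ σ * (x : ℝ) ^ (1 - σ) := by ring
        _ = x := by
          rw [← Real.rpow_add hx0, show σ + (1 - σ) = (1 : ℝ) by ring, Real.rpow_one]
    exact_mod_cast h4
  obtain ⟨j, hjJ, hconst⟩ := specPIE w x P J hm (by
    have : w (x + J * P) ≤ w (2 * x) := hm (by omega)
    omega)
  set u := x + j * P with hu
  have hju : (j + 1) * P ≤ J * P := Nat.mul_le_mul_right P (by omega)
  have hj1 : (j + 1) * P = j * P + P := by ring
  have huP : u + P + 1 ≤ 2 * x := by omega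
  set z := w u with hz
  have hzx : w x ≤ z := hm (by omega)
  have hzl : z ≤ w (2 * x) := hm (by omega)
  have hz2 : 2 ≤ z := h2 _
  have hVz := V_pos' hz2
  -- the modulus
  set M := pr z * g with hM
  have hQ : ∀ q : ℕ, q.Prime → q < z → q ∣ M := fun q hq h =>
    Dvd.dvd.mul_right (dvd_pr hq h) g
  have hgM : g ≤ M := Nat.le_mul_of_pos_left g (pr_pos z)
  have hM1 : 1 ≤ M := le_trans hg1 hgM
  have hz4 : (4 : ℝ) ^ z ≤ (x : ℝ) ^ (σ / 2) := by
    rw [← Real.rpow_natCast, Real.rpow_def_of_pos (by norm_num), Real.rpow_def_of_pos hx0]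
    apply Real.exp_le_exp.2
    have h3 : (z : ℝ) ≤ δ * Real.log x := by
      have : (z : ℝ) ≤ w (2 * x) := by exact_mod_cast hzl
      linarith
    calc Real.log 4 * z ≤ Real.log 4 * (δ * Real.log x) := by gcongr
      _ = Real.log x * (σ / 2) := by
        rw [hδdef]; field_simp
  have hMr : (M : ℝ) ≤ (x : ℝ) ^ (σ / 2) * g := by
    rw [hM]
    push_cast
    apply mul_le_mul_of_nonneg_right _ (Nat.cast_nonneg g)
    refine le_trans ?_ hz4
    exact_mod_cast pr_le z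
  obtain ⟨hMP, hK⟩ := hnum P g M rfl hM1 hgM hgC hMr
  -- the minimal window
  obtain ⟨a0, ha0⟩ := exists_sieveMin z g
  set a := a0 % M with ha
  have haM : a < M := Nat.mod_lt _ (by omega)
  have hcnt : ∀ k : ℕ, cnt z (k * M + a) g = sieveMin z g := by
    intro k
    have h3 : a0 = a + a0 / M * M := by
      rw [ha]
      have := Nat.mod_add_div a0 M
      rw [mul_comm] at this
      omega
    have h4 := cnt_shift z M (a0 / M) a g hQ
    rw [← h3] at h4
    have h5 := cnt_shift z M k a g hQ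
    rw [Nat.add_comm, h5, ← h4, ha0]
  set N := (P - 2 * M) / M with hN
  have hNM : N * M ≤ P - 2 * M := Nat.div_mul_le_self _ M
  have hkb : ∀ k ∈ Finset.Ioc (u / M) (u / M + N), u < k * M ∧ k * M + (a + g) ≤ u + P := by
    intro k hk
    rw [Finset.mem_Ioc] at hk
    constructor
    · exact (Nat.div_lt_iff_lt_mul (by omega)).1 hk.1
    · have h3 : k * M ≤ (u / M + N) * M := Nat.mul_le_mul_right M hk.2
      have h4 : u / M * M ≤ u := Nat.div_mul_le_self u M
      have h6 : (u / M + N) * M = u / M * M + N * M := by ring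
      omega
  have hinj : Set.InjOn (fun k => k * M + a + 1) ((Finset.Ioc (u / M) (u / M + N) : Finset ℕ) :
      Set ℕ) := by
    intro k _ l _ h
    simp only at h
    have : k * M = l * M := by omega
    exact Nat.eq_of_mul_eq_mul_right (by omega) this
  refine ⟨(Finset.Ioc (u / M) (u / M + N)).image (fun k => k * M + a + 1), ?_, ?_, ?_, ?_⟩
  · intro s hs
    rw [Finset.mem_image] at hs
    obtain ⟨k, hk, rfl⟩ := hs
    have h1 := hkb k hk
    constructor <;> omega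
  · intro s hs s' hs' hne
    rw [Finset.mem_image] at hs hs'
    obtain ⟨k, hk, rfl⟩ := hs
    obtain ⟨l, hl, rfl⟩ := hs'
    rw [Finset.disjoint_left]
    intro n hn hn'
    rw [Finset.mem_Ico] at hn hn'
    apply hne
    rcases lt_trichotomy k l with h | h | h
    · exfalso
      have h1 : (k + 1) * M ≤ l * M := Nat.mul_le_mul_right M (by omega)
      have h3 : (k + 1) * M = k * M + M := by ring
      omega
    · rw [h]
    · exfalso
      have h1 : (l + 1) * M ≤ k * M := Nat.mul_le_mul_right M (by omega)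
      have h3 : (l + 1) * M = l * M + M := by ring
      omega
  · rw [Finset.card_image_of_injOn hinj, Nat.card_Ioc, Nat.add_sub_cancel_left]
    have e : 1 - η / 2 = 1 - 3 * σ := by rw [hσdef]; ring
    rw [e]
    exact hK
  · intro s hs
    rw [Finset.mem_image] at hs
    obtain ⟨k, hk, rfl⟩ := hs
    have h1 := hkb k hk
    have h3 : ∀ n ∈ Finset.Ico (k * M + a + 1) (k * M + a + 1 + g),
        cgDens w n ≤ Gra.r z n / V z / Real.log x := by
      intro n hn
      rw [Finset.mem_Ico] at hn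
      have h4 := cg_le h2 (show 2 ≤ x by omega) (show x ≤ n by omega)
      rwa [hconst n (by omega) (by omega)] at h4
    refine (Finset.sum_le_sum h3).trans ?_
    rw [← Finset.sum_div, ← Finset.sum_div]
    have e1 : Finset.Ico (k * M + a + 1) (k * M + a + 1 + g) =
        Finset.Ioc (k * M + a) (k * M + a + g) := by
      ext n; rw [Finset.mem_Ico, Finset.mem_Ioc]; omega
    rw [e1, ← cnt_eq_sum, hcnt k, div_le_iff₀ hlx]
    have h5 := anti (h2 x) hzx g
    have hVx := V_pos' (h2 x)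
    have h6 : (sieveMin (w x) g : ℝ) / V (w x) ≤ (1 - η) * Real.log x ^ 2 := by
      rw [div_le_iff₀ hVx]
      linarith
    calc (sieveMin z g : ℝ) / V z ≤ (1 - η) * Real.log x ^ 2 := h5.trans h6
      _ = (1 - η) * Real.log x * Real.log x := by ring

end Pool.Agent.Lib.MP_926cc3_nt.XG
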