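import Pool.Agent.Lib.MP_926cc3_nt.XG.Low
import Pool.Agent.Lib.MP_926cc3_nt.XG.Win

/-!
# Exact asymptotics of the first occurrences
-/

set_option autoImplicit false

open Filter Topology MeasureTheory ProbabilityTheory

namespace Pool.Agent.Lib.MP_926cc3_nt.XG

open Pool.Agent.Lib.MP_926cc3_nt.RS Pool.Agent.Lib.MP_926cc3_nt.TH

universe u

variable {w : ℕ → ℕ}

open Classical in
/-- the longest `g` whose critical point is small compared with `x` -/
noncomputable def H (w : ℕ → ℕ) (θ : ℝ) (x : ℕ) : ℕ :=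
  Nat.findGreatest (fun g => (crit w g : ℝ) ^ (1 + θ) ≤ x) x

theorem le_H {θ : ℝ} {x g : ℕ} (hg : g ≤ x) (h : (crit w g : ℝ) ^ (1 + θ) ≤ x) :
    g ≤ H w θ x ∧ (crit w (H w θ x) : ℝ) ^ (1 + θ) ≤ x := by
  classical
  unfold H
  exact ⟨Nat.le_findGreatest hg h, Nat.findGreatest_spec (P := fun g =>
    (crit w g : ℝ) ^ (1 + θ) ≤ x) hg h⟩

theorem H_tendsto {θ : ℝ} : Tendsto (H w θ) atTop atTop := by
  rw [tendsto_atTop]
  intro g0
  obtain ⟨x0, hx0⟩ := exists_nat_ge ((crit w g0 : ℝ) ^ (1 + θ))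
  filter_upwards [eventually_ge_atTop x0, eventually_ge_atTop g0] with x hx hx2
  have hx' : (x0 : ℝ) ≤ x := by exact_mod_cast hx
  exact (le_H hx2 (hx0.trans hx')).1

/-- the windows exist for all large `x` -/
theorem exists_windows (hm : Monotone w) (h2 : ∀ n, 2 ≤ w n)
    (hw : (fun n => (w n : ℝ)) =o[atTop] (fun n : ℕ => Real.log n)) {θ : ℝ} (hθ : 0 < θ) :
    ∀ᶠ x : ℕ in atTop, ∃ I : Finset ℕ,
      UPHM.WinP w (1 - (1 - 1 / (1 + θ) ^ 2)) (1 - (1 - 1 / (1 + θ) ^ 2) / 2) x (H w θ x) I := by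
  obtain ⟨C, hC, K, hg⟩ := crit_growth hm h2 hw
  have hθ1 : (1 : ℝ) < (1 + θ) ^ 2 := by nlinarith
  have e1 : 1 / (1 + θ) ^ 2 < 1 := by
    rw [div_lt_one (by linarith)]
    exact hθ1
  have e2 : 0 < 1 / (1 + θ) ^ 2 := by positivity
  have hH := H_tendsto (w := w) (θ := θ)
  obtain ⟨x0, hx0⟩ := exists_nat_ge ((crit w 0 : ℝ) ^ (1 + θ))
  filter_upwards [specWIN w hm h2 hw (1 - 1 / (1 + θ) ^ 2) C K (by linarith) (by linarith),
    hH.eventually hg, hH.eventually_ge_atTop 1, eventually_ge_atTop x0, eventually_ge_atTop 1]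
    with x h3 h4 h5 h6 h7
  have hx' : (x0 : ℝ) ≤ x := by exact_mod_cast h6
  have h8 := (le_H (g := 0) (Nat.zero_le x) (hx0.trans hx')).2
  set g := H w θ x with hgdef
  have hN := (crit_spec h2 g).1
  have hN2 : (2 : ℝ) ≤ crit w g := by exact_mod_cast hN
  have hx1 : (1 : ℝ) ≤ x := by exact_mod_cast h7
  have hlogN : 0 < Real.log (crit w g : ℝ) := Real.log_pos (by linarith)
  have h9 : (1 + θ) * Real.log (crit w g) ≤ Real.log x := by
    rw [← Real.log_rpow (by linarith)]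
    exact Real.log_le_log (Real.rpow_pos_of_pos (by linarith) _) h8
  have h10 : Real.log (crit w g) ≤ Real.log x := by nlinarith
  have h11 : crit w g ≤ x := by
    have : (crit w g : ℝ) ≤ x := (Real.log_le_log_iff (by linarith) (by linarith)).1 h10
    exact_mod_cast this
  refine h3 g h5 (h4.trans ?_) ?_
  · apply mul_le_mul_of_nonneg_left _ hC.le
    exact pow_le_pow_left₀ hlogN.le h10 K
  · have h12 := above hm h2 (g := g) (z := w x) (hm h11)
    refine h12.trans ?_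
    apply mul_le_mul_of_nonneg_left _ (V_pos' (h2 x)).le
    have h13 : 1 - (1 - 1 / (1 + θ) ^ 2) = 1 / (1 + θ) ^ 2 := by ring
    rw [h13, one_div, ← div_eq_inv_mul, le_div_iff₀ (by linarith), ← mul_pow]
    apply pow_le_pow_left₀ (by positivity)
    linarith

/-- the deterministic upper bound -/
theorem up_det (hm : Monotone w) (h2 : ∀ n, 2 ≤ w n)
    (hw : (fun n => (w n : ℝ)) =o[atTop] (fun n : ℕ => Real.log n)) {θ : ℝ} (hθ : 0 < θ)
    {S : Set ℕ} (h1 : ∀ᶠ x : ℕ in atTop, ∃ a : ℕ, x ≤ a ∧ a ≤ 2 * x ∧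
      ∀ n, a ≤ n → n < a + H w θ x → n ∉ S)
    (h3 : ∀ᶠ x : ℕ in atTop, ∃ n ∈ S, 2 * x ≤ n ∧ n ≤ 3 * x) :
    ∀ᶠ g : ℕ in atTop, {p : ℕ | p ∈ S ∧ ∀ i : ℕ, 1 ≤ i → i ≤ g →
      (1 < p - i ∧ p - i ∉ S)}.Nonempty ∧
      Real.log (firstElt S g) ≤ Real.log 12 + (1 + θ) * Real.log (crit w g) := by
  obtain ⟨C, hC, K, hg⟩ := crit_growth hm h2 hw
  have hcr := crit_tendsto hm h2
  -- `g ≤ crit`
  have hgN : ∀ᶠ g : ℕ in atTop, g ≤ crit w g := by
    have e1 : ∀ᶠ N : ℕ in atTop, C * Real.log N ^ K ≤ N := by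
      have e2 : (fun x : ℝ => Real.log x ^ (K : ℝ)) =o[atTop] (fun x : ℝ => x ^ (1 : ℝ)) :=
        isLittleO_log_rpow_rpow_atTop (K : ℝ) (by norm_num)
      have e3 := e2.def (show (0 : ℝ) < 1 / C by positivity)
      have e4 := (tendsto_natCast_atTop_atTop (R := ℝ)).eventually e3
      filter_upwards [e4, eventually_ge_atTop 1] with N hN hN1
      have hN1' : (1 : ℝ) ≤ N := by exact_mod_cast hN1
      have hl : 0 ≤ Real.log (N : ℝ) := Real.log_nonneg hN1'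
      rw [Real.rpow_natCast, Real.rpow_one, Real.norm_of_nonneg (by positivity),
        Real.norm_of_nonneg (by positivity)] at hN
      calc C * Real.log N ^ K ≤ C * (1 / C * N) := mul_le_mul_of_nonneg_left hN hC.le
        _ = N := by field_simp
    filter_upwards [hg, hcr.eventually e1] with g g1 g2
    exact_mod_cast g1.trans g2
  -- the point `x`
  set X : ℕ → ℕ := fun g => ⌈(crit w g : ℝ) ^ (1 + θ)⌉₊ with hX
  have hNX : ∀ g, crit w g ≤ X g := by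
    intro g
    have hN2 : (2 : ℝ) ≤ crit w g := by exact_mod_cast (crit_spec h2 g).1
    have e1 : (crit w g : ℝ) ≤ (crit w g : ℝ) ^ (1 + θ) := by
      calc (crit w g : ℝ) = (crit w g : ℝ) ^ (1 : ℝ) := (Real.rpow_one _).symm
        _ ≤ _ := Real.rpow_le_rpow_of_exponent_le (by linarith) (by linarith)
    have e2 := e1.trans (Nat.le_ceil _)
    exact_mod_cast e2
  have hXt : Tendsto X atTop atTop := tendsto_atTop_mono hNX hcr
  have hX2 : Tendsto (fun g => 2 * X g) atTop atTop :=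
    tendsto_atTop_mono (fun g => by omega) hXt
  filter_upwards [hXt.eventually h1, hX2.eventually h3, hgN, hXt.eventually_ge_atTop 2]
    with g g1 g2 g3 g4
  obtain ⟨a, ha1, ha2, ha3⟩ := g1
  obtain ⟨n0, hn0, hn1, hn2⟩ := g2
  have hgX : g ≤ X g := g3.trans (hNX g)
  have hgH : g ≤ H w θ (X g) := (le_H hgX (Nat.le_ceil _)).1
  -- the first element after the run
  classical
  have hex : ∃ n, n ∈ S ∧ a ≤ n := ⟨n0, hn0, by omega⟩
  obtain ⟨hp1, hp2⟩ := Nat.find_spec hex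
  set p := Nat.find hex with hp
  have hmin : ∀ m, m < p → a ≤ m → m ∉ S := fun m hm h1 h2 => Nat.find_min hex hm ⟨h2, h1⟩
  have hpn : p ≤ n0 := Nat.find_min' hex ⟨hn0, by omega⟩
  have hge : a + g ≤ p := by
    by_contra hcon
    exact ha3 p hp2 (by omega) hp1
  have hmem : p ∈ {p : ℕ | p ∈ S ∧ ∀ i : ℕ, 1 ≤ i → i ≤ g → (1 < p - i ∧ p - i ∉ S)} :=
    ⟨hp1, fun i hi1 hi2 => ⟨by omega, hmin _ (by omega) (by omega)⟩⟩
  refine ⟨⟨p, hmem⟩, ?_⟩
  have h5 : firstElt S g ≤ 6 * X g := by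
    have : firstElt S g ≤ p := Nat.sInf_le hmem
    omega
  have hN2 : (2 : ℝ) ≤ crit w g := by exact_mod_cast (crit_spec h2 g).1
  have hpos : (0 : ℝ) < (crit w g : ℝ) ^ (1 + θ) := Real.rpow_pos_of_pos (by linarith) _
  have h6 : (X g : ℝ) ≤ 2 * (crit w g : ℝ) ^ (1 + θ) := by
    have e1 : (X g : ℝ) < (crit w g : ℝ) ^ (1 + θ) + 1 := Nat.ceil_lt_add_one hpos.le
    have e2 : (1 : ℝ) ≤ (crit w g : ℝ) ^ (1 + θ) := Real.one_le_rpow (by linarith) (by linarith)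
    linarith
  by_cases h0 : firstElt S g = 0
  · rw [h0]
    simp only [Nat.cast_zero, Real.log_zero]
    have e1 : 0 ≤ Real.log 12 := Real.log_nonneg (by norm_num)
    have e2 : 0 ≤ Real.log (crit w g : ℝ) := Real.log_nonneg (by linarith)
    positivity
  have h7 : (firstElt S g : ℝ) ≤ 12 * (crit w g : ℝ) ^ (1 + θ) := by
    have : (firstElt S g : ℝ) ≤ 6 * X g := by exact_mod_cast h5
    linarith
  calc Real.log (firstElt S g) ≤ Real.log (12 * (crit w g : ℝ) ^ (1 + θ)) :=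
        Real.log_le_log (by exact_mod_cast Nat.pos_of_ne_zero h0) h7
    _ = _ := by
        rw [Real.log_mul (by norm_num) hpos.ne', Real.log_rpow (by linarith)]

/-- the deterministic lower bound -/
theorem low_det {η : ℝ} {S : Set ℕ}
    (h1 : ∀ᶠ g : ℕ in atTop, ∀ a : ℕ, 1 ≤ a → a + g ≤ ⌊(crit w g : ℝ) ^ (1 - η)⌋₊ →
      ∃ n ∈ Finset.Ioc a (a + g), n ∈ S)
    (h2 : ∀ n, 2 ≤ w n)
    (hne : ∀ᶠ g : ℕ in atTop, {p : ℕ | p ∈ S ∧ ∀ i : ℕ, 1 ≤ i → i ≤ g →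
      (1 < p - i ∧ p - i ∉ S)}.Nonempty) :
    ∀ᶠ g : ℕ in atTop, (1 - η) * Real.log (crit w g) ≤ Real.log (firstElt S g) := by
  filter_upwards [h1, hne, eventually_ge_atTop 1] with g g1 g2 g3
  have hmem := Nat.sInf_mem g2
  change firstElt S g ∈ _ at hmem
  obtain ⟨hpS, hpi⟩ := hmem
  set p := firstElt S g with hp
  have hpg : 1 < p - g := (hpi g g3 le_rfl).1
  have hN2 : (2 : ℝ) ≤ crit w g := by exact_mod_cast (crit_spec h2 g).1
  have h4 : ¬ (p - g - 1 + g ≤ ⌊(crit w g : ℝ) ^ (1 - η)⌋₊) := by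
    intro h
    obtain ⟨n, hn1, hn2⟩ := g1 (p - g - 1) (by omega) h
    rw [Finset.mem_Ioc] at hn1
    have h5 := (hpi (p - n) (by omega) (by omega)).2
    have h6 : p - (p - n) = n := by omega
    rw [h6] at h5
    exact h5 hn2
  have h5 : ⌊(crit w g : ℝ) ^ (1 - η)⌋₊ + 1 ≤ p := by omega
  have h6 : (crit w g : ℝ) ^ (1 - η) ≤ p := by
    have e1 := (Nat.lt_floor_add_one ((crit w g : ℝ) ^ (1 - η))).le
    have e2 : ((⌊(crit w g : ℝ) ^ (1 - η)⌋₊ + 1 : ℕ) : ℝ) ≤ p := by exact_mod_cast h5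
    push_cast at e2
    linarith
  rw [← Real.log_rpow (by linarith)]
  exact Real.log_le_log (Real.rpow_pos_of_pos (by linarith) _) h6

/-- **exact asymptotics** -/
theorem main (hm : Monotone w) (h2 : ∀ n, 2 ≤ w n)
    (hw : (fun n => (w n : ℝ)) =o[atTop] (fun n : ℕ => Real.log n)) (Ω : Type u)
    (m0 : MeasurableSpace Ω) (μ : Measure Ω) (hμ : IsProbabilityMeasure μ) (B : ℕ → Set Ω)
    (hB : ∀ n, MeasurableSet (B n)) (hI : iIndepSet B μ)
    (hdB : ∀ᶠ n in atTop, μ.real (B n) = cgDens w n) :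
    ∀ᵐ ω ∂μ, (∀ᶠ g : ℕ in atTop, {p : ℕ | p ∈ evSet B ω ∧ ∀ i : ℕ, 1 ≤ i → i ≤ g →
        (1 < p - i ∧ p - i ∉ evSet B ω)}.Nonempty) ∧
      Asymptotics.IsEquivalent atTop (fun g : ℕ => Real.log (firstElt (evSet B ω) g : ℝ))
        (fun g : ℕ => Real.log (crit w g : ℝ)) := by
  have hlo : (fun n => Real.log (w n)) =o[atTop] (fun n : ℕ => Real.log n) := by
    refine Asymptotics.IsBigO.trans_isLittleO ?_ hw
    refine Asymptotics.IsBigO.of_bound 1 (Eventually.of_forall fun n => ?_)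
    have h3 : (2 : ℝ) ≤ w n := by exact_mod_cast h2 n
    have h4 : 0 ≤ Real.log (w n : ℝ) := Real.log_nonneg (by linarith)
    rw [Real.norm_of_nonneg h4, Real.norm_of_nonneg (by linarith), one_mul]
    have := Real.log_le_sub_one_of_pos (show (0 : ℝ) < w n by linarith)
    linarith
  have hd : Tendsto (fun n => cgDens w n) atTop (𝓝 0) := All.hCGZ w h2 hlo
  have hdense := UPHM.dense hm h2 hlo Ω m0 μ hμ B hB hI hdB
  have hups : ∀ᵐ ω ∂μ, ∀ k : ℕ, ∀ᶠ x : ℕ in atTop, ∃ a : ℕ, x ≤ a ∧ a ≤ 2 * x ∧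
      ∀ n, a ≤ n → n < a + H w (1 / ((k : ℝ) + 2)) x → n ∉ evSet B ω := by
    rw [ae_all_iff]
    intro k
    have hθ : (0 : ℝ) < 1 / ((k : ℝ) + 2) := by positivity
    have hθ1 : (1 : ℝ) < (1 + 1 / ((k : ℝ) + 2)) ^ 2 := by nlinarith
    have e1 : 1 / (1 + 1 / ((k : ℝ) + 2)) ^ 2 < 1 := by
      rw [div_lt_one (by linarith)]
      exact hθ1
    have e2 : 0 < 1 / (1 + 1 / ((k : ℝ) + 2)) ^ 2 := by positivity
    have h3 := exists_windows hm h2 hw hθ
    filter_upwards [UPHM.runsH specEMP w hd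
      (show 0 < 1 - (1 - 1 / (1 + 1 / ((k : ℝ) + 2)) ^ 2) by linarith)
      (show 1 - (1 - 1 / (1 + 1 / ((k : ℝ) + 2)) ^ 2) <
        1 - (1 - 1 / (1 + 1 / ((k : ℝ) + 2)) ^ 2) / 2 by linarith)
      (H w (1 / ((k : ℝ) + 2))) Ω m0 μ hμ B hB hI hdB] with ω hω
    filter_upwards [hω, h3] with x hx hx3
    exact hx hx3
  have hlows : ∀ᵐ ω ∂μ, ∀ k : ℕ, ∀ᶠ g : ℕ in atTop, ∀ a : ℕ, 1 ≤ a →
      a + g ≤ ⌊(crit w g : ℝ) ^ (1 - 1 / ((k : ℝ) + 2))⌋₊ →
      ∃ n ∈ Finset.Ioc a (a + g), ω ∈ B n := by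
    rw [ae_all_iff]
    intro k
    have hk : (0 : ℝ) ≤ k := Nat.cast_nonneg k
    exact low hm h2 hw (by positivity) (by rw [div_lt_one (by positivity)]; linarith)
      Ω m0 μ hμ B hB hI hdB
  have hcr := crit_tendsto hm h2
  have hlogc : Tendsto (fun g : ℕ => Real.log (crit w g : ℝ)) atTop atTop :=
    Real.tendsto_log_atTop.comp (tendsto_natCast_atTop_atTop.comp hcr)
  filter_upwards [hdense, hups, hlows] with ω w1 w2 w3
  have hup : ∀ k : ℕ, _ := fun k => up_det hm h2 hw (θ := 1 / ((k : ℝ) + 2)) (by positivity)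
    (w2 k) w1
  have hne : ∀ᶠ g : ℕ in atTop, {p : ℕ | p ∈ evSet B ω ∧ ∀ i : ℕ, 1 ≤ i → i ≤ g →
      (1 < p - i ∧ p - i ∉ evSet B ω)}.Nonempty := (hup 0).mono fun g hg => hg.1
  have hlow : ∀ k : ℕ, _ := fun k => low_det (w := w) (S := evSet B ω)
    (η := 1 / ((k : ℝ) + 2)) (w3 k) h2 hne
  refine ⟨hne, ?_⟩
  have hL0 : ∀ᶠ g : ℕ in atTop, Real.log (crit w g : ℝ) ≠ 0 :=
    (hlogc.eventually_gt_atTop 0).mono fun g hg => hg.ne'
  rw [Asymptotics.isEquivalent_iff_tendsto_one hL0, Metric.tendsto_atTop']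
  intro ε hε
  obtain ⟨k, hk⟩ := exists_nat_one_div_lt (show 0 < ε / 2 by linarith)
  have hk2 : 1 / ((k : ℝ) + 2) < ε / 2 := by
    refine lt_of_le_of_lt ?_ hk
    exact one_div_le_one_div_of_le (by positivity) (by linarith)
  obtain ⟨G, hG⟩ := eventually_atTop.1 ((hup k).and ((hlow k).and
    ((hlogc.eventually_ge_atTop (Real.log 12 / (ε / 2) + 1)))))
  refine ⟨G, fun g hg => ?_⟩
  obtain ⟨⟨-, f1⟩, f2, f3⟩ := hG g hg.le
  set L := Real.log (crit w g : ℝ) with hL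
  have hl12 : 0 ≤ Real.log 12 := Real.log_nonneg (by norm_num)
  have hLpos : 0 < L := by
    have : 0 ≤ Real.log 12 / (ε / 2) := by positivity
    linarith
  have h12 : Real.log 12 < ε / 2 * L := by
    have : Real.log 12 / (ε / 2) < L := by linarith
    rw [div_lt_iff₀ (by linarith)] at this
    linarith
  have h3 : 1 / ((k : ℝ) + 2) * L < ε / 2 * L := mul_lt_mul_of_pos_right hk2 hLpos
  have g1 : Real.log (firstElt (evSet B ω) g) / L < 1 + ε := by
    rw [div_lt_iff₀ hLpos]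
    linarith
  have g2 : 1 - ε < Real.log (firstElt (evSet B ω) g) / L := by
    rw [lt_div_iff₀ hLpos]
    nlinarith
  rw [Pi.div_apply, Real.dist_eq, abs_lt]
  constructor <;> linarith

end Pool.Agent.Lib.MP_926cc3_nt.XG
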