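import Pool.Agent.Lib.MP_926cc3_nt.XG.LowA
import Pool.Agent.Lib.MP_926cc3_nt.XG.Main

/-!
# Exact asymptotics of the first occurrences, adapted random sets
-/

set_option autoImplicit false

open Filter Topology MeasureTheory ProbabilityTheory Asymptotics

namespace Pool.Agent.Lib.MP_926cc3_nt.XG

open Pool.Agent.Lib.MP_926cc3_nt.RS Pool.Agent.Lib.MP_926cc3_nt.TH
  Pool.Agent.Lib.MP_926cc3_nt.TH.ADPM

universe u

variable {w : ℕ → ℕ}

theorem log_lo (h2 : ∀ n, 2 ≤ w n)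
    (hw : (fun n => (w n : ℝ)) =o[atTop] (fun n : ℕ => Real.log n)) :
    (fun n => Real.log (w n)) =o[atTop] (fun n : ℕ => Real.log n) := by
  refine Asymptotics.IsBigO.trans_isLittleO ?_ hw
  refine Asymptotics.IsBigO.of_bound 1 (Eventually.of_forall fun n => ?_)
  have h3 : (2 : ℝ) ≤ w n := by exact_mod_cast h2 n
  have h4 : 0 ≤ Real.log (w n : ℝ) := Real.log_nonneg (by linarith)
  rw [Real.norm_of_nonneg h4, Real.norm_of_nonneg (by linarith), one_mul]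
  have := Real.log_le_sub_one_of_pos (show (0 : ℝ) < w n by linarith)
  linarith

/-- the deterministic conclusion -/
theorem final (hm : Monotone w) (h2 : ∀ n, 2 ≤ w n)
    (hw : (fun n => (w n : ℝ)) =o[atTop] (fun n : ℕ => Real.log n)) {S : Set ℕ}
    (w1 : ∀ᶠ x : ℕ in atTop, ∃ n ∈ S, 2 * x ≤ n ∧ n ≤ 3 * x)
    (w2 : ∀ k : ℕ, ∀ᶠ x : ℕ in atTop, ∃ a : ℕ, x ≤ a ∧ a ≤ 2 * x ∧
      ∀ n, a ≤ n → n < a + H w (1 / ((k : ℝ) + 2)) x → n ∉ S)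
    (w3 : ∀ k : ℕ, ∀ᶠ g : ℕ in atTop, ∀ a : ℕ, 1 ≤ a →
      a + g ≤ ⌊(crit w g : ℝ) ^ (1 - 1 / ((k : ℝ) + 2))⌋₊ →
      ∃ n ∈ Finset.Ioc a (a + g), n ∈ S) :
    (∀ᶠ g : ℕ in atTop, {p : ℕ | p ∈ S ∧ ∀ i : ℕ, 1 ≤ i → i ≤ g →
        (1 < p - i ∧ p - i ∉ S)}.Nonempty) ∧
      (fun g : ℕ => Real.log (firstElt S g : ℝ)) ~[atTop]
        (fun g : ℕ => Real.log (crit w g : ℝ)) := by
  have hcr := crit_tendsto hm h2
  have hlogc : Tendsto (fun g : ℕ => Real.log (crit w g : ℝ)) atTop atTop :=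
    Real.tendsto_log_atTop.comp (tendsto_natCast_atTop_atTop.comp hcr)
  have hup : ∀ k : ℕ, _ := fun k => up_det hm h2 hw (θ := 1 / ((k : ℝ) + 2)) (by positivity)
    (w2 k) w1
  have hne : ∀ᶠ g : ℕ in atTop, {p : ℕ | p ∈ S ∧ ∀ i : ℕ, 1 ≤ i → i ≤ g →
      (1 < p - i ∧ p - i ∉ S)}.Nonempty := (hup 0).mono fun g hg => hg.1
  have hlow : ∀ k : ℕ, _ := fun k => low_det (w := w) (S := S)
    (η := 1 / ((k : ℝ) + 2)) (w3 k) h2 hne
  refine ⟨hne, ?_⟩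
  have hL0 : ∀ᶠ g : ℕ in atTop, Real.log (crit w g : ℝ) ≠ 0 :=
    (hlogc.eventually_gt_atTop 0).mono fun g hg => hg.ne'
  rw [Asymptotics.isEquivalent_iff_tendsto_one hL0, Metric.tendsto_atTop']
  intro ε hε
  obtain ⟨k, hk⟩ := exists_nat_one_div_lt (show 0 < ε / 2 by linarith)
  have hk2 : 1 / ((k : ℝ) + 2) < ε / 2 := by
    refine lt_of_le_of_lt ?_ hk
    exact one_div_le_one_div_of_le (by positivity) (by linarith)
  obtain ⟨G, hG⟩ := eventually_atTop.1 ((hup k).and ((hlow k).and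
    ((hlogc.eventually_ge_atTop (Real.log 12 / (ε / 2) + 1)))))
  refine ⟨G, fun g hg => ?_⟩
  obtain ⟨⟨-, f1⟩, f2, f3⟩ := hG g hg.le
  set L := Real.log (crit w g : ℝ) with hL
  have hl12 : 0 ≤ Real.log 12 := Real.log_nonneg (by norm_num)
  have hLpos : 0 < L := by
    have : 0 ≤ Real.log 12 / (ε / 2) := by positivity
    linarith
  have h12 : Real.log 12 < ε / 2 * L := by
    have : Real.log 12 / (ε / 2) < L := by linarith
    rw [div_lt_iff₀ (by linarith)] at this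
    linarith
  have h3 : 1 / ((k : ℝ) + 2) * L < ε / 2 * L := mul_lt_mul_of_pos_right hk2 hLpos
  have g1 : Real.log (firstElt S g) / L < 1 + ε := by
    rw [div_lt_iff₀ hLpos]
    linarith
  have g2 : 1 - ε < Real.log (firstElt S g) / L := by
    rw [lt_div_iff₀ hLpos]
    nlinarith
  rw [Pi.div_apply, Real.dist_eq, abs_lt]
  constructor <;> linarith

/-- **exact asymptotics**, adapted random sets -/
theorem mainA (hm : Monotone w) (h2 : ∀ n, 2 ≤ w n)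
    (hw : (fun n => (w n : ℝ)) =o[atTop] (fun n : ℕ => Real.log n)) {Ω : Type u}
    [m0 : MeasurableSpace Ω] {μ : Measure Ω} [IsProbabilityMeasure μ] {ℱ : Filtration ℕ m0}
    {R : Ω → Set ℕ} {d : ℕ → Ω → ℝ} (h : Dens μ ℱ R d)
    (hdg : ∀ᵐ ω ∂μ, (fun n => d n ω) ~[atTop] cgDens w) :
    ∀ᵐ ω ∂μ, (∀ᶠ g : ℕ in atTop, {p : ℕ | p ∈ R ω ∧ ∀ i : ℕ, 1 ≤ i → i ≤ g →
        (1 < p - i ∧ p - i ∉ R ω)}.Nonempty) ∧
      (fun g : ℕ => Real.log (firstElt (R ω) g : ℝ)) ~[atTop]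
        (fun g : ℕ => Real.log (crit w g : ℝ)) := by
  have hlo := log_lo h2 hw
  have hd : Tendsto (fun n => cgDens w n) atTop (𝓝 0) := All.hCGZ w h2 hlo
  have hdense := denseA h hm h2 hlo hdg
  have hups : ∀ᵐ ω ∂μ, ∀ k : ℕ, ∀ᶠ x : ℕ in atTop, ∃ a : ℕ, x ≤ a ∧ a ≤ 2 * x ∧
      ∀ n, a ≤ n → n < a + H w (1 / ((k : ℝ) + 2)) x → n ∉ R ω := by
    rw [ae_all_iff]
    intro k
    have hθ : (0 : ℝ) < 1 / ((k : ℝ) + 2) := by positivity
    have hθ1 : (1 : ℝ) < (1 + 1 / ((k : ℝ) + 2)) ^ 2 := by nlinarith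
    have e1 : 1 / (1 + 1 / ((k : ℝ) + 2)) ^ 2 < 1 := by
      rw [div_lt_one (by linarith)]
      exact hθ1
    have e2 : 0 < 1 / (1 + 1 / ((k : ℝ) + 2)) ^ 2 := by positivity
    have h3 := exists_windows hm h2 hw hθ
    filter_upwards [runsA h h2 hd hdg
      (show 0 < 1 - (1 - 1 / (1 + 1 / ((k : ℝ) + 2)) ^ 2) by linarith)
      (show 1 - (1 - 1 / (1 + 1 / ((k : ℝ) + 2)) ^ 2) <
        1 - (1 - 1 / (1 + 1 / ((k : ℝ) + 2)) ^ 2) / 2 by linarith)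
      (fun x => max 1 (H w (1 / ((k : ℝ) + 2)) x)) (fun x => le_max_left _ _)] with ω hω
    filter_upwards [hω, h3, (H_tendsto (w := w) (θ := 1 / ((k : ℝ) + 2))).eventually_ge_atTop 1]
      with x hx hx3 hx4
    rw [max_eq_right hx4] at hx
    exact hx hx3
  have hlows : ∀ᵐ ω ∂μ, ∀ k : ℕ, ∀ᶠ g : ℕ in atTop, ∀ a : ℕ, 1 ≤ a →
      a + g ≤ ⌊(crit w g : ℝ) ^ (1 - 1 / ((k : ℝ) + 2))⌋₊ →
      ∃ n ∈ Finset.Ioc a (a + g), n ∈ R ω := by
    rw [ae_all_iff]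
    intro k
    have hk : (0 : ℝ) ≤ k := Nat.cast_nonneg k
    exact lowA h hm h2 hw hlo hdg (by positivity) (by rw [div_lt_one (by positivity)]; linarith)
  filter_upwards [hdense, hups, hlows] with ω w1 w2 w3
  exact final hm h2 hw w1 w2 w3

end Pool.Agent.Lib.MP_926cc3_nt.XG
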