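import Pool.Agent.Lib.MP_926cc3_nt.XG.MainA
import Pool.Agent.Lib.MP_926cc3_nt.RS.CE

/-!
# Exact asymptotics of the first occurrences: random sets with a predictable density
-/

set_option autoImplicit false

open Filter Topology MeasureTheory ProbabilityTheory Asymptotics

namespace Pool.Agent.Lib.MP_926cc3_nt.XG

open Pool.Agent.Lib.MP_926cc3_nt.RS Pool.Agent.Lib.MP_926cc3_nt.TH

universe u

/-- **exact asymptotics**, random sets with a predictable density -/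
theorem mainP {w : ℕ → ℕ} (hm : Monotone w) (h2 : ∀ n, 2 ≤ w n)
    (hw : (fun n => (w n : ℝ)) =o[atTop] (fun n : ℕ => Real.log n)) {Ω : Type u}
    [m0 : MeasurableSpace Ω] {μ : Measure Ω} [IsProbabilityMeasure μ] {ℱ : Filtration ℕ m0}
    {R : Ω → Set ℕ} (hR : ∀ n, MeasurableSet[ℱ n] {ω | n ∈ R ω})
    (hdg : ∀ᵐ ω ∂μ, (fun n => predDensity μ ℱ R n ω) ~[atTop] cgDens w) :
    ∀ᵐ ω ∂μ, (∀ᶠ g : ℕ in atTop, {p : ℕ | p ∈ R ω ∧ ∀ i : ℕ, 1 ≤ i → i ≤ g →
        (1 < p - i ∧ p - i ∉ R ω)}.Nonempty) ∧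
      (fun g : ℕ => Real.log (firstElt (R ω) g : ℝ)) ~[atTop]
        (fun g : ℕ => Real.log (crit w g : ℝ)) := by
  refine mainA hm h2 hw (CE.dens (μ := μ) hR) ?_
  have hall : ∀ᵐ ω ∂μ, ∀ n, max 0 (min 1 (predDensity μ ℱ R n ω)) = predDensity μ ℱ R n ω := by
    rw [ae_all_iff]
    intro n
    exact CE.clamp (μ := μ) hR n
  filter_upwards [hall, hdg] with ω h1 h3
  simp_rw [h1]
  exact h3

end Pool.Agent.Lib.MP_926cc3_nt.XG
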