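import Pool.Agent.Lib.MP_926cc3_nt.RS.Gra
import Pool.Agent.Lib.MP_926cc3_nt.XG.Defs

/-!
# The least number of sifted integers in an interval

`cnt z a g`: the number of `n ∈ (a, a + g]` without prime factor `< z`.
`sieveMin z g`: the least value of `cnt z a g`.
`anti`: `sieveMin z g / V z` is nonincreasing in `z`.
`lower`: `sieveMin z g ≥ g V z / 2 - C z ^ K`.
-/

set_option autoImplicit false

open Filter Topology

namespace Pool.Agent.Lib.MP_926cc3_nt.XG

open Pool.Agent.Lib.MP_926cc3_nt.RS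

theorem sieveMin_le (z a g : ℕ) : sieveMin z g ≤ cnt z a g := Nat.sInf_le ⟨a, rfl⟩

theorem exists_sieveMin (z g : ℕ) : ∃ a, cnt z a g = sieveMin z g := by
  have h : {k : ℕ | ∃ a : ℕ, cnt z a g = k}.Nonempty := ⟨_, 0, rfl⟩
  exact Nat.sInf_mem h

theorem noSmall_two (n : ℕ) : NoSmall 2 n := fun _ hp _ => hp.two_le

theorem sieveMin_two (g : ℕ) : sieveMin 2 g = g := by
  obtain ⟨a, ha⟩ := exists_sieveMin 2 g
  rw [← ha]
  simp [cnt, noSmall_two]

theorem V_two : V 2 = 1 := by
  unfold V
  have : (Finset.range 2).filter Nat.Prime = ∅ := by decide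
  rw [this, Finset.prod_empty]

theorem V_succ_prime {p : ℕ} (hp : p.Prime) : V (p + 1) = V p * (1 - 1 / (p : ℝ)) := by
  unfold V
  rw [Finset.range_add_one, Finset.filter_insert, if_pos hp, Finset.prod_insert, mul_comm]
  simp

theorem V_succ_not {p : ℕ} (hp : ¬ p.Prime) : V (p + 1) = V p := by
  unfold V
  rw [Finset.range_add_one, Finset.filter_insert, if_neg hp]

theorem noSmall_succ_not {p : ℕ} (hp : ¬ p.Prime) (n : ℕ) : NoSmall (p + 1) n ↔ NoSmall p n := by
  unfold NoSmall
  constructor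
  · intro h q hq hqn
    have := h q hq hqn
    omega
  · intro h q hq hqn
    have h1 := h q hq hqn
    have h2 : q ≠ p := fun h => hp (h ▸ hq)
    omega

theorem noSmall_succ_prime {p : ℕ} (hp : p.Prime) (n : ℕ) :
    NoSmall (p + 1) n ↔ NoSmall p n ∧ ¬ p ∣ n := by
  unfold NoSmall
  constructor
  · intro h
    refine ⟨fun q hq hqn => ?_, fun hpn => ?_⟩
    · have := h q hq hqn
      omega
    · have := h p hp hpn
      omega
  · rintro ⟨h, h2⟩ q hq hqn
    have h1 := h q hq hqn
    have h3 : q ≠ p := fun h => h2 (h ▸ hqn)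
    omega

/-- the product of the primes below `p` -/
def pr (p : ℕ) : ℕ := ∏ q ∈ (Finset.range p).filter Nat.Prime, q

theorem dvd_pr {p q : ℕ} (hq : q.Prime) (h : q < p) : q ∣ pr p :=
  Finset.dvd_prod_of_mem (fun q => q) (Finset.mem_filter.2 ⟨Finset.mem_range.2 h, hq⟩)

theorem coprime_pr {p : ℕ} (hp : p.Prime) : Nat.Coprime p (pr p) := by
  unfold pr
  apply Nat.Coprime.prod_right
  intro q hq
  rw [Finset.mem_filter, Finset.mem_range] at hq
  exact (Nat.coprime_primes hp hq.2).2 (by omega)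

theorem noSmall_add (z Q j n : ℕ) (hQ : ∀ q : ℕ, q.Prime → q < z → q ∣ Q) :
    NoSmall z (n + j * Q) ↔ NoSmall z n := by
  unfold NoSmall
  constructor
  · intro h q hq hqn
    by_contra hlt
    have h1 := hQ q hq (by omega)
    exact hlt (h q hq (dvd_add hqn (Dvd.dvd.mul_left h1 j)))
  · intro h q hq hqn
    by_contra hlt
    have h1 := hQ q hq (by omega)
    exact hlt (h q hq ((Nat.dvd_add_left (Dvd.dvd.mul_left h1 j)).1 hqn))

theorem cnt_eq_sum (z a g : ℕ) : (cnt z a g : ℝ) = ∑ n ∈ Finset.Ioc a (a + g), Gra.r z n := by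
  classical
  unfold cnt Gra.r
  rw [Finset.card_filter]
  push_cast
  rfl

theorem cnt_shift (z Q j a g : ℕ) (hQ : ∀ q : ℕ, q.Prime → q < z → q ∣ Q) :
    cnt z (a + j * Q) g = cnt z a g := by
  classical
  unfold cnt
  have h1 : (Finset.Ioc (a + j * Q) (a + j * Q + g)).filter (fun n => NoSmall z n) =
      ((Finset.Ioc a (a + g)).filter (fun n => NoSmall z n)).map (addRightEmbedding (j * Q)) := by
    ext n
    simp only [Finset.mem_filter, Finset.mem_Ioc, Finset.mem_map, addRightEmbedding_apply]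
    constructor
    · rintro ⟨⟨h1, h2⟩, h3⟩
      refine ⟨n - j * Q, ⟨⟨by omega, by omega⟩, ?_⟩, by omega⟩
      rw [← noSmall_add z Q j (n - j * Q) hQ]
      have : n - j * Q + j * Q = n := by omega
      rwa [this]
    · rintro ⟨m, ⟨⟨h1, h2⟩, h3⟩, rfl⟩
      exact ⟨⟨by omega, by omega⟩, (noSmall_add z Q j m hQ).2 h3⟩
  rw [h1, Finset.card_map]

/-- one more prime -/
theorem sieveMin_prime {p : ℕ} (hp : p.Prime) (g : ℕ) :
    p * sieveMin (p + 1) g ≤ (p - 1) * sieveMin p g := by
  classical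
  obtain ⟨a, ha⟩ := exists_sieveMin p g
  have hQ : ∀ q : ℕ, q.Prime → q < p → q ∣ pr p := fun q hq h => dvd_pr hq h
  -- sum over the shifts
  have h1 : p * sieveMin (p + 1) g ≤ ∑ j ∈ Finset.range p, cnt (p + 1) (a + j * pr p) g := by
    calc p * sieveMin (p + 1) g = ∑ _j ∈ Finset.range p, sieveMin (p + 1) g := by
          rw [Finset.sum_const, Finset.card_range, smul_eq_mul]
      _ ≤ _ := Finset.sum_le_sum fun j _ => sieveMin_le _ _ _
  refine h1.trans ?_
  have h2 : ∀ j, cnt (p + 1) (a + j * pr p) g = ∑ n ∈ Finset.Ioc a (a + g),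
      if NoSmall p n ∧ ¬ p ∣ n + j * pr p then 1 else 0 := by
    intro j
    unfold cnt
    rw [← Finset.card_filter]
    have h3 : (Finset.Ioc (a + j * pr p) (a + j * pr p + g)).filter (fun n => NoSmall (p + 1) n) =
        ((Finset.Ioc a (a + g)).filter (fun n => NoSmall p n ∧ ¬ p ∣ n + j * pr p)).map
          (addRightEmbedding (j * pr p)) := by
      ext n
      simp only [Finset.mem_filter, Finset.mem_Ioc, Finset.mem_map, addRightEmbedding_apply]
      constructor
      · rintro ⟨⟨h1, h2⟩, h3⟩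
        rw [noSmall_succ_prime hp] at h3
        have e : n - j * pr p + j * pr p = n := by omega
        refine ⟨n - j * pr p, ⟨⟨by omega, by omega⟩, ?_, ?_⟩, by omega⟩
        · rw [← noSmall_add p (pr p) j (n - j * pr p) hQ, e]
          exact h3.1
        · rw [e]
          exact h3.2
      · rintro ⟨m, ⟨⟨h1, h2⟩, h3, h4⟩, rfl⟩
        refine ⟨⟨by omega, by omega⟩, ?_⟩
        rw [noSmall_succ_prime hp]
        exact ⟨(noSmall_add p (pr p) j m hQ).2 h3, h4⟩
    rw [h3, Finset.card_map]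
  rw [Finset.sum_congr rfl fun j _ => h2 j, Finset.sum_comm]
  have h4 : ∀ n, NoSmall p n → ∑ j ∈ Finset.range p,
      (if NoSmall p n ∧ ¬ p ∣ n + j * pr p then 1 else 0) ≤ p - 1 := by
    intro n _
    -- some shift is divisible by `p`
    obtain ⟨j0, hj0, hd⟩ : ∃ j0 < p, p ∣ n + j0 * pr p := by
      have hc := coprime_pr hp
      obtain ⟨u, -, hu⟩ := Nat.exists_mul_mod_eq_one_of_coprime hc.symm hp.one_lt
      refine ⟨((p - n % p) * u) % p, Nat.mod_lt _ hp.pos, ?_⟩
      have h5 : (n + ((p - n % p) * u) % p * pr p) % p = 0 := by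
        have h6 : (((p - n % p) * u) % p * pr p) % p = (p - n % p) % p := by
          have e1 : ((p - n % p) * u) % p * pr p ≡ (p - n % p) * u * pr p [MOD p] :=
            (Nat.mod_modEq _ _).mul_right _
          have e2 : pr p * u ≡ 1 [MOD p] := by
            unfold Nat.ModEq
            rw [hu, Nat.mod_eq_of_lt hp.one_lt]
          have e3 : (p - n % p) * u * pr p ≡ (p - n % p) * 1 [MOD p] := by
            rw [mul_assoc, mul_comm u]
            exact e2.mul_left _
          have e4 := e1.trans e3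
          rw [mul_one] at e4
          exact e4
        rw [Nat.add_mod, h6, ← Nat.add_mod]
        have h7 : n % p < p := Nat.mod_lt _ hp.pos
        have h8 : n + (p - n % p) = p * (n / p) + p := by
          have := Nat.div_add_mod n p
          omega
        rw [h8, Nat.add_mod_right, Nat.mul_mod_right]
      exact Nat.dvd_of_mod_eq_zero h5
    rw [← Finset.card_filter]
    have h5 : (Finset.range p).filter (fun j => NoSmall p n ∧ ¬ p ∣ n + j * pr p) ⊆
        (Finset.range p).erase j0 := by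
      intro j hj
      rw [Finset.mem_filter] at hj
      rw [Finset.mem_erase]
      exact ⟨fun h => hj.2.2 (h ▸ hd), hj.1⟩
    have h6 := Finset.card_le_card h5
    rwa [Finset.card_erase_of_mem (Finset.mem_range.2 hj0), Finset.card_range] at h6
  calc ∑ n ∈ Finset.Ioc a (a + g), ∑ j ∈ Finset.range p,
        (if NoSmall p n ∧ ¬ p ∣ n + j * pr p then 1 else 0)
      ≤ ∑ n ∈ Finset.Ioc a (a + g), if NoSmall p n then p - 1 else 0 := by
        refine Finset.sum_le_sum fun n _ => ?_
        by_cases hn : NoSmall p n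
        · rw [if_pos hn]
          exact h4 n hn
        · rw [if_neg hn]
          exact le_of_eq (Finset.sum_eq_zero fun j _ => if_neg fun h => hn h.1)
    _ = (p - 1) * sieveMin p g := by
        rw [← Finset.sum_filter, Finset.sum_const, smul_eq_mul, ← ha, mul_comm]
        rfl

theorem V_pos' {z : ℕ} (hz : 2 ≤ z) : 0 < V z := Gra.V_pos z hz

/-- `sieveMin z g / V z` is nonincreasing in `z` -/
theorem anti_succ {z : ℕ} (hz : 2 ≤ z) (g : ℕ) :
    (sieveMin (z + 1) g : ℝ) / V (z + 1) ≤ sieveMin z g / V z := by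
  have hV := V_pos' hz
  by_cases hp : z.Prime
  · have h1 := sieveMin_prime hp g
    have h2 : ((z * sieveMin (z + 1) g : ℕ) : ℝ) ≤ (((z - 1) * sieveMin z g : ℕ) : ℝ) := by
      exact_mod_cast h1
    rw [Nat.cast_mul, Nat.cast_mul, Nat.cast_sub (by omega), Nat.cast_one] at h2
    have hz2 : (2 : ℝ) ≤ z := by exact_mod_cast hz
    rw [V_succ_prime hp, div_le_div_iff₀ (mul_pos hV (by
      rw [sub_pos, div_lt_one (by linarith)]; linarith)) hV]
    have h3 : V z * (1 - 1 / (z : ℝ)) * z = V z * (z - 1) := by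
      field_simp
    have h4 : (sieveMin (z + 1) g : ℝ) * V z * z ≤ sieveMin z g * (V z * (1 - 1 / (z : ℝ))) * z := by
      calc (sieveMin (z + 1) g : ℝ) * V z * z = (z * sieveMin (z + 1) g) * V z := by ring
        _ ≤ ((z - 1) * sieveMin z g) * V z := mul_le_mul_of_nonneg_right h2 hV.le
        _ = sieveMin z g * (V z * (z - 1)) := by ring
        _ = sieveMin z g * (V z * (1 - 1 / (z : ℝ)) * z) := by rw [h3]
        _ = _ := by ring
    exact le_of_mul_le_mul_right h4 (by linarith)
  · have h1 : sieveMin (z + 1) g = sieveMin z g := by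
      have e : ∀ a, cnt (z + 1) a g = cnt z a g := by
        intro a
        unfold cnt
        congr 1
        ext n
        simp only [Finset.mem_filter, noSmall_succ_not hp]
      unfold sieveMin
      simp_rw [e]
    rw [h1, V_succ_not hp]

theorem anti {z z' : ℕ} (hz : 2 ≤ z) (h : z ≤ z') (g : ℕ) :
    (sieveMin z' g : ℝ) / V z' ≤ sieveMin z g / V z := by
  induction z', h using Nat.le_induction with
  | base => exact le_rfl
  | succ n hn ih => exact (anti_succ (by omega) g).trans ih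

theorem le_self {z : ℕ} (hz : 2 ≤ z) (g : ℕ) : (sieveMin z g : ℝ) / V z ≤ g := by
  refine (anti le_rfl hz g).trans ?_
  rw [sieveMin_two, V_two, div_one]

/-- the lower bound sieve, with constants -/
theorem lower : ∃ C : ℝ, 0 < C ∧ ∃ K : ℕ, ∀ z g : ℕ, 2 ≤ z →
    (g : ℝ) * V z / 2 - C * (z : ℝ) ^ K ≤ sieveMin z g := by
  obtain ⟨C, hC, h⟩ := Gra.interval
  obtain ⟨b, hb⟩ : ∃ b : ℕ, C * Real.exp (-(b : ℝ)) ≤ 1 / 2 := by
    have h1 : Tendsto (fun b : ℕ => C * Real.exp (-(b : ℝ))) atTop (𝓝 (C * 0)) := by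
      apply Tendsto.const_mul
      exact (Real.tendsto_exp_neg_atTop_nhds_zero).comp tendsto_natCast_atTop_atTop
    rw [mul_zero] at h1
    obtain ⟨b, hb⟩ := (h1.eventually (gt_mem_nhds (show (0 : ℝ) < 1 / 2 by norm_num))).exists
    exact ⟨b, hb.le⟩
  refine ⟨C, hC, 8 * b + 17, fun z g hz => ?_⟩
  obtain ⟨a, ha⟩ := exists_sieveMin z g
  have h1 := h b z a (a + g) hz (by omega)
  rw [← cnt_eq_sum, ha] at h1
  have h2 : ((a + g : ℕ) : ℝ) - a = g := by push_cast; ring
  rw [h2] at h1
  have h3 := (abs_le.1 h1).1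
  have h4 : C * Real.exp (-(b : ℝ)) * g * V z ≤ 1 / 2 * (g * V z) := by
    have h5 : 0 ≤ (g : ℝ) * V z := mul_nonneg (Nat.cast_nonneg _) (V_pos' hz).le
    calc C * Real.exp (-(b : ℝ)) * g * V z = (C * Real.exp (-(b : ℝ))) * (g * V z) := by ring
      _ ≤ _ := mul_le_mul_of_nonneg_right hb h5
  linarith

end Pool.Agent.Lib.MP_926cc3_nt.XG
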