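import Pool.Agent.Lib.MP_926cc3_nt.XG.Min
import Pool.Agent.Lib.MP_926cc3_nt.TH.UPH

/-!
# Exact asymptotics of the first occurrences in the Cramer-Granville models of level `o(log n)`

Definitions and the interface of the modules.
-/

set_option autoImplicit false

open Filter Topology MeasureTheory ProbabilityTheory

namespace Pool.Agent.Lib.MP_926cc3_nt.XG

open Pool.Agent.Lib.MP_926cc3_nt.RS Pool.Agent.Lib.MP_926cc3_nt.TH
  Pool.Agent.Lib.MP_926cc3_nt.TH.UPHM

/-- **WIN** (module Win.lean): many disjoint windows of length `g` in `[x, 2x]` of density sum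
`≤ (1 - η) log x`, if `sieveMin (w x) g ≤ V (w x) (1 - η) log² x`.
Proof. Cut `[x, 2x]` into `w (2x) + 1 = x^o(1)` pieces (`specPIE`); `w = z ≥ w x` on one of them, so
`sieveMin z g ≤ V z (1 - η) log² x` (`anti`). `specMOD`: a modulus `Q ≥ g`, `Q ≤ 4^z 2g = x^o(1)`,
divisible by exactly the primes `< z` (for `z = 2`: `Q = g`). `a` = minimal window (`exists_sieveMin`),
the windows `s = a + 1 + j Q` inside the piece (`cnt_shift`, and `a` may be reduced mod `Q`);
`cg_le`. -/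
def SpecWIN : Prop := ∀ w : ℕ → ℕ, Monotone w → (∀ n, 2 ≤ w n) →
  (fun n => (w n : ℝ)) =o[atTop] (fun n : ℕ => Real.log n) →
  ∀ (η : ℝ) (C : ℝ) (K : ℕ), 0 < η → η < 1 → ∀ᶠ x : ℕ in atTop, ∀ g : ℕ, 1 ≤ g →
    (g : ℝ) ≤ C * Real.log x ^ K →
    (sieveMin (w x) g : ℝ) ≤ V (w x) * ((1 - η) * Real.log x ^ 2) →
    ∃ I : Finset ℕ, WinP w (1 - η) (1 - η / 2) x g I

end Pool.Agent.Lib.MP_926cc3_nt.XG
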